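import Mathlib
import Pool.Agent.H6.QL.Stm2

set_option autoImplicit false

/-!
# Definitions for the final statement, with the lengths of the lines
-/

namespace Pool.H6.QL

open Finset Classical Pool.Agent.H3.Frg Pool.Agent.H3.Frg2 Pool.Agent.H3.Frg4 Pool.Agent.H81.QG

/-- Lower bounds for all systems with modus ponens and sound axiom schemes with at most `K ^ δ` symbols; the
axioms are the clauses in `Γ`. The number of occurrences of variables is the size of a formula.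
(1) A refutation on a blackboard with total space `S` and `T` steps has `S log₂ T ≥ K ^ (2 - e)`.
(2) A refutation with lines of size at most `s` and total size `Z` has `Z s ≥ K ^ (4 - e)`.
(3) So does a proof of the negation of a conjunction of clauses in `Γ`.
(4) A tree-like refutation with `N` lines of size at most `s` has `s log₂ N ≥ K ^ (2 - e)`.
(5) A refutation of height `h` with lines of size at most `s` has `s (h + 1) ≥ K ^ (2 - e)`. -/
def Hard3 {V : Type} (Γ : Set (List (V × Bool))) (K e δ : ℝ) : Prop :=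
  ∀ Sch : Set (Fm ℕ), (∀ ψ ∈ Sch, (ψ.len : ℝ) ≤ K ^ δ ∧ ∀ x : ℕ → Bool, ψ.eval x = true) →
    (∀ (S T : ℕ) (M : ℕ → Finset (Fm V)), BB Sch (Cls Γ) S T M →
      (∃ A ∈ M T, Fm.neg A ∈ M T) → K ^ (2 - e) ≤ S * Real.logb 2 T) ∧
    (∀ (s L : ℕ) (pf : Fin L → Fm V), IsDer Sch (Cls Γ) pf → (∀ i, (pf i).leaves ≤ s) →
      (∃ i j, pf i = Fm.neg (pf j)) → K ^ (4 - e) ≤ ((∑ i, (pf i).leaves : ℕ) : ℝ) * s) ∧
    (∀ (A : Fm V) (l : List (Fm V)), A ∈ Cls Γ → (∀ B ∈ l, B ∈ Cls Γ) →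
      ∀ (s L : ℕ) (pf : Fin L → Fm V), IsDer Sch ∅ pf → (∀ i, (pf i).leaves ≤ s) →
      (∃ i, pf i = Fm.neg (cnj A l)) → K ^ (4 - e) ≤ ((∑ i, (pf i).leaves : ℕ) : ℝ) * s) ∧
    (∀ (s N N' : ℕ) (A : Fm V), TD Sch (Cls Γ) s N A → TD Sch (Cls Γ) s N' (Fm.neg A) →
      K ^ (2 - e) ≤ s * Real.logb 2 (N + N')) ∧
    (∀ (s h : ℕ) (A : Fm V), HD Sch (Cls Γ) s h A → HD Sch (Cls Γ) s h (Fm.neg A) →
      K ^ (2 - e) ≤ s * (h + 1))

end Pool.H6.QL
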