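import Mathlib
import Pool.Agent.H6.QR.Exv
import Pool.Agent.H6.QL.Evc
import Pool.Agent.H6.QL.Stm
import Pool.Agent.H90.QL.Rg

set_option autoImplicit false

/-!
# Lines of size at most `K / 4`: there is no refutation at all
-/

namespace Pool.H63.ZS

open Finset Classical Pool.Agent.H3.Frg Pool.Agent.H3.Frg2 Pool.Agent.H3.Frg4 Pool.Agent.H81.QG
  Pool.H6.QL Pool.H6.QR

variable {H : Type} [NormedAddCommGroup H] [InnerProductSpace ℝ H] {n K : ℕ}
  {cl : Rn n →ₗ[ℝ] H} {dg : ℕ → Submodule ℝ (Rn n)}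

private theorem evb (F : Fm (Fin n)) (a : Fin n → Bool) :
    ev (R := Rn n) yy F a = if F.eval a = true then 1 else 0 := by
  induction F with
  | var i => rfl
  | neg A ih =>
    show (1 : ℝ) - ev (R := Rn n) yy A a = if (!(A.eval a)) = true then 1 else 0
    rw [ih]
    cases A.eval a <;> simp
  | imp A B ihA ihB =>
    show (1 : ℝ) - ev (R := Rn n) yy A a + ev (R := Rn n) yy A a * ev (R := Rn n) yy B a =
      if (!(A.eval a) || B.eval a) = true then 1 else 0
    rw [ihA, ihB]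
    cases A.eval a <;> cases B.eval a <;> simp

private theorem ebind {V : Type} (σ : ℕ → Fm V) (v : V → Bool) (χ : Fm ℕ) :
    (χ.bind σ).eval v = χ.eval fun i => (σ i).eval v := by
  induction χ with
  | var i => rfl
  | neg A ih =>
    show (!(A.bind σ).eval v) = !(A.eval fun i => (σ i).eval v)
    rw [ih]
  | imp A B ihA ihB =>
    show (!(A.bind σ).eval v || (B.bind σ).eval v) = (!(A.eval fun i => (σ i).eval v) || B.eval fun i => (σ i).eval v)
    rw [ihA, ihB]

private theorem ev_mem' (hL : Liar cl dg K) (hy : ∀ i : Fin n, yy i ∈ dg 1) (F : Fm (Fin n)) :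
    ev (R := Rn n) yy F ∈ dg F.leaves := by
  have h1 : ∀ j, (1 : Rn n) ∈ dg j := fun j => hL.mono (Nat.zero_le j) hL.one
  induction F with
  | var i => exact hy i
  | neg A ih => exact sub_mem (h1 _) ih
  | imp A B ihA ihB =>
    refine add_mem (sub_mem (h1 _) (hL.mono (Nat.le_add_right _ _) ihA)) ?_
    exact hL.mul _ _ _ _ ihA ihB

private theorem kill (hL : Liar cl dg K) {a b : ℕ} {e q : Rn n} (hea : e ∈ dg a) (hq : q ∈ dg b)
    (hab : a + (a + b) ≤ K) (h0 : cl q = 0) : cl (e * q) = 0 := by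
  have h1 := hL.sym a b (a + b) e q (e * q) hea hq (hL.mul _ _ _ _ hea hq) (by omega) hab
  rw [h0, inner_zero_left] at h1
  exact inner_self_eq_zero.1 h1

/-- No refutation with lines of size at most `K / 4`. -/
theorem exact_ref {n K : ℕ} {Γ : Set (List (Fin n × Bool))} (hPE : PE n K Γ)
    (hΓ : ∀ c ∈ Γ, c.length ≤ K) {Sch : Set (Fm ℕ)} (hSch : ∀ ψ ∈ Sch, ∀ x, ψ.eval x = true)
    {s L : ℕ} {pf : Fin L → Fm (Fin n)} (hpf : IsDer Sch (Cls Γ) pf)
    (hs : ∀ i, (pf i).leaves ≤ s) (h4 : 4 * s ≤ K) : ¬ ∃ i j, pf i = Fm.neg (pf j) := by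
  obtain ⟨m, X, Lf, cl, dg, hRW⟩ := Pool.H90.QL.rw_exists hPE
  have hL := hRW.liar
  have h1 : ∀ j, (1 : Rn n) ∈ dg j := fun j => hL.mono (Nat.zero_le j) hL.one
  have hmem : ∀ i, 1 - ev (R := Rn n) yy (pf i) ∈ dg s := fun i =>
    sub_mem (h1 _) (hL.mono (hs i) (ev_mem' hL hRW.ymem (pf i)))
  have key : ∀ k : ℕ, ∀ i : Fin L, i.1 = k → cl (1 - ev (R := Rn n) yy (pf i)) = 0 := by
    intro k
    induction k using Nat.strong_induction_on with
    | _ k ih =>
      intro i hi
      rcases hpf i with h | ⟨ψ, hψ, σ, h⟩ | ⟨j, l, hj, hl, h⟩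
      · obtain ⟨a, c, hac, h⟩ := h
        rw [h, ev_clF]
        have h2 := hRW.null _ hac 0 (by
          rw [Nat.zero_add]
          exact hΓ _ hac) 1 hL.one
        rwa [mul_one] at h2
      · have h2 : (1 : Rn n) - ev (R := Rn n) yy (pf i) = 0 := by
          funext a
          show (1 : ℝ) - ev (R := Rn n) yy (pf i) a = 0
          rw [evb, h, ebind, hSch ψ hψ]
          simp
        rw [h2, map_zero]
      · have hA := ih j.1 (by rw [← hi]; exact hj) j rfl
        have hI := ih l.1 (by rw [← hi]; exact hl) l rfl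
        have e1 : (1 : Rn n) - ev (R := Rn n) yy (pf i) =
            (1 - ev (R := Rn n) yy (pf i)) * (1 - ev (R := Rn n) yy (pf j)) +
              (1 - ev (R := Rn n) yy (pf l)) := by
          rw [h]
          show _ = _ + (1 - (1 - ev (R := Rn n) yy (pf j) + ev (R := Rn n) yy (pf j) * ev (R := Rn n) yy (pf i)))
          ring
        rw [e1, map_add, hI, add_zero]
        exact kill hL (hmem i) (hmem j) (by omega) hA
  rintro ⟨i, j, hij⟩
  have hi := key i.1 i rfl
  have hj := key j.1 j rfl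
  have e1 : (1 : Rn n) = (1 - ev (R := Rn n) yy (pf i)) + (1 - ev (R := Rn n) yy (pf j)) := by
    rw [hij]
    show _ = (1 - (1 - ev (R := Rn n) yy (pf j))) + _
    ring
  have e2 := congrArg cl e1
  rw [map_add, hi, hj, add_zero] at e2
  have e3 := hL.nrm
  rw [e2, norm_zero] at e3
  exact zero_ne_one e3

/-- No proof of the tautology with lines of size at most `K / 4`. -/
theorem exact_taut {n K : ℕ} {Γ : Set (List (Fin n × Bool))} (hPE : PE n K Γ)
    (hΓ : ∀ c ∈ Γ, c.length ≤ K) {Sch : Set (Fm ℕ)} (hSch : ∀ ψ ∈ Sch, ∀ x, ψ.eval x = true)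
    {A : Fm (Fin n)} {l : List (Fm (Fin n))} (hA : A ∈ Cls Γ) (hl : ∀ B ∈ l, B ∈ Cls Γ)
    {s L : ℕ} {pf : Fin L → Fm (Fin n)} (hpf : IsDer Sch ∅ pf)
    (hs : ∀ i, (pf i).leaves ≤ s) (h4 : 4 * s ≤ K) : ¬ ∃ i, pf i = Fm.neg (cnj A l) := by
  obtain ⟨m, X, Lf, cl, dg, hRW⟩ := Pool.H90.QL.rw_exists hPE
  have hL := hRW.liar
  have h1 : ∀ j, (1 : Rn n) ∈ dg j := fun j => hL.mono (Nat.zero_le j) hL.one
  rintro ⟨i, hi⟩
  -- every line is a tautology
  have key : ∀ k : ℕ, ∀ i : Fin L, i.1 = k → ∀ a, (pf i).eval a = true := by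
    intro k
    induction k using Nat.strong_induction_on with
    | _ k ih =>
      intro i hi a
      rcases hpf i with h | ⟨ψ, hψ, σ, h⟩ | ⟨j, l, hj, hl, h⟩
      · exact absurd h (Set.notMem_empty _)
      · rw [h, ebind, hSch ψ hψ]
      · have hA := ih j.1 (by rw [← hi]; exact hj) j rfl a
        have hI := ih l.1 (by rw [← hi]; exact hl) l rfl a
        rw [h] at hI
        have h2 : (!(pf j).eval a || (pf i).eval a) = true := hI
        rw [hA] at h2
        simpa using h2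
  have hcls : ∀ B ∈ Cls Γ, cl (1 - ev (R := Rn n) yy B) = 0 := by
    rintro B ⟨a, c, hac, rfl⟩
    rw [ev_clF]
    have h2 := hRW.null _ hac 0 (by
      rw [Nat.zero_add]
      exact hΓ _ hac) 1 hL.one
    rwa [mul_one] at h2
  have hcnj : ∀ (l : List (Fm (Fin n))) (A : Fm (Fin n)), A ∈ Cls Γ → (∀ B ∈ l, B ∈ Cls Γ) → (cnj A l).leaves ≤ s →
      cl (1 - ev (R := Rn n) yy (cnj A l)) = 0 := by
    intro l
    induction l with
    | nil => exact fun A hA _ _ => hcls A hA
    | cons B l ih =>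
      intro A hA hl hs'
      have e0 : (cnj A (B :: l)).leaves = A.leaves + (cnj B l).leaves := rfl
      rw [e0] at hs'
      have h2 := ih B (hl B List.mem_cons_self) (fun C hC => hl C (List.mem_cons_of_mem _ hC)) (by omega)
      have e1 : (1 : Rn n) - ev (R := Rn n) yy (cnj A (B :: l)) =
          (1 - ev (R := Rn n) yy A) + ev (R := Rn n) yy A * (1 - ev (R := Rn n) yy (cnj B l)) := by
        show 1 - (1 - (1 - ev (R := Rn n) yy A + ev (R := Rn n) yy A * (1 - ev (R := Rn n) yy (cnj B l)))) = _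
        ring
      rw [e1, map_add, hcls A hA, zero_add]
      exact kill hL (ev_mem' hL hRW.ymem A)
        (sub_mem (h1 _) (ev_mem' hL hRW.ymem (cnj B l))) (by omega) h2
  have h2 := hcnj l A hA hl (by
    have h3 := hs i
    rw [hi] at h3
    exact h3)
  have e1 : ev (R := Rn n) yy (cnj A l) = 0 := by
    funext a
    have h3 := key i.1 i rfl a
    rw [hi] at h3
    have h4 : (!(cnj A l).eval a) = true := h3
    show ev (R := Rn n) yy (cnj A l) a = 0
    rw [evb]
    cases h5 : (cnj A l).eval a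
    · simp
    · rw [h5] at h4
      exact absurd h4 (by simp)
  rw [e1, sub_zero] at h2
  have e3 := hL.nrm
  rw [h2, norm_zero] at e3
  exact zero_ne_one e3

end Pool.H63.ZS
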