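import Mathlib
import Pool.Agent.H6.QR.ShL
import Pool.Agent.H63.ZS.Stm3

set_option autoImplicit false
set_option linter.unusedSectionVars false

/-!
# Random 3-CNFs and sharpness, form with the lengths of the lines

`Hd3`: the general theorem (`hard3`) as a proposition. `hard3_mono`: monotonicity of `Hard3` in the numbers. `rnd3`: almost all 3-CNFs with
`Δ n` clauses (`Δ ≥ 6`) are unsatisfiable and hard with `K = n`. `shp3h`: hard clauses with refutations with `O(n ^ 2 (log n) ^ 2)` symbols.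
-/

namespace Pool.H63.ZS

open Finset Classical Pool.H6.QL Pool.H6.QR Pool.Agent.H3.Frg Pool.Agent.H3.Frg2 Pool.Agent.H3.Frg4
  Pool.Agent.H81.QG Pool.Agent.H55.AG Pool.Agent.H55.QT

/-- The general theorem. -/
def Hd3 : Prop := ∀ e : ℝ, 0 < e → ∃ δ : ℝ, 0 < δ ∧ ∃ K0 : ℕ,
    ∀ (n K : ℕ) (Γ : Set (List (Fin n × Bool))), K0 ≤ K → PE n K Γ →
    (∀ c ∈ Γ, (c.length : ℝ) ≤ (K : ℝ) ^ δ) → Hard3 Γ (K : ℝ) e δ

theorem hard3_mono {V : Type} {Γ : Set (List (V × Bool))} {K N e' δ' e δ : ℝ}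
    (h : Hard3 Γ K e' δ') (h1 : N ^ δ ≤ K ^ δ') (h2 : N ^ (2 - e) ≤ K ^ (2 - e'))
    (h3 : N ^ (4 - e) ≤ K ^ (4 - e')) : Hard3 Γ N e δ := by
  intro Sch hSch
  obtain ⟨a1, a2, a3, a4, a5⟩ := h Sch fun ψ hψ => ⟨(hSch ψ hψ).1.trans h1, (hSch ψ hψ).2⟩
  exact ⟨fun S T M hM hA => h2.trans (a1 S T M hM hA),
    fun s L pf hpf hs hij => h3.trans (a2 s L pf hpf hs hij),
    fun A l hA hl s L pf hpf hs hi => h3.trans (a3 A l hA hl s L pf hpf hs hi),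
    fun s N1 N2 A hN1 hN2 => h2.trans (a4 s N1 N2 A hN1 hN2),
    fun s hh A hA hnA => h2.trans (a5 s hh A hA hnA)⟩

theorem rnd3 (H : Hd3) {Δ : ℕ} (hΔ : 6 ≤ Δ) {e : ℝ} (he : 0 < e) : ∃ δ : ℝ, 0 < δ ∧ ∃ n0 : ℕ, ∀ n : ℕ, n0 ≤ n →
    ((univ.filter fun φ : Fin (Δ * n) → Cl n =>
      ¬ (¬ Sat φ ∧ Hard3 {l | ∃ j, l = clist (φ j)} (n : ℝ) e δ)).card : ℝ) ≤
      e * Fintype.card (Fin (Δ * n) → Cl n) := by
  obtain ⟨e', he'⟩ : ∃ e', e' = min (e / 2) (1 / 2) := ⟨_, rfl⟩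
  have he0 : 0 < e' := by
    rw [he']
    exact lt_min (by linarith) (by norm_num)
  have he1 : e' ≤ 1 / 2 := by
    rw [he']
    exact min_le_right _ _
  have he2 : e' < e := by
    have : e' ≤ e / 2 := by
      rw [he']
      exact min_le_left _ _
    linarith
  obtain ⟨δ', hδ', K0, hK0⟩  := H e' he0
  obtain ⟨c, hc, n1, hn1⟩ := rand3 hΔ he
  obtain ⟨n2, hn2⟩ := pow_cmp (c := c / 2) (a := δ' / 2) (b := δ') (by positivity) hδ' (by linarith)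
  obtain ⟨n3, hn3⟩ := pow_cmp (c := c / 2) (a := 2 - e) (b := 2 - e') (by positivity)
    (by linarith) (by linarith)
  obtain ⟨n4, hn4⟩ := pow_cmp (c := c / 2) (a := 4 - e) (b := 4 - e') (by positivity)
    (by linarith) (by linarith)
  obtain ⟨n5, hn5⟩ := pow_cmp (c := c / 2) (a := 0) (b := δ') (by positivity) hδ' hδ'
  have ht : Filter.Tendsto (fun n : ℕ => c / 2 * (n : ℝ)) Filter.atTop Filter.atTop :=
    tendsto_natCast_atTop_atTop.const_mul_atTop (by positivity)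
  obtain ⟨n6, hn6⟩ := Filter.eventually_atTop.1 (ht.eventually_ge_atTop (K0 : ℝ))
  have ht2 : Filter.Tendsto (fun K : ℕ => (K : ℝ) ^ δ') Filter.atTop Filter.atTop :=
    (tendsto_rpow_atTop hδ').comp tendsto_natCast_atTop_atTop
  obtain ⟨K1, hK1⟩ := Filter.eventually_atTop.1 (ht2.eventually_ge_atTop (3 : ℝ))
  obtain ⟨n7, hn7⟩ := Filter.eventually_atTop.1 (ht.eventually_ge_atTop (K1 : ℝ))
  refine ⟨δ' / 2, by linarith, n1 + n2 + n3 + n4 + n5 + n6 + n7, ?_⟩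
  intro n hn
  obtain ⟨hK, hcard⟩ := hn1 n (by omega)
  refine le_trans ?_ hcard
  have hKn : c / 2 * n ≤ (⌊c * n⌋₊ : ℝ) := by
    have h1 : c * n < ⌊c * n⌋₊ + 1 := Nat.lt_floor_add_one _
    have h2 : (1 : ℝ) ≤ ⌊c * n⌋₊ := by exact_mod_cast hK
    linarith
  have hKK : K0 ≤ ⌊c * n⌋₊ := by
    have h1 := hn6 n (by omega)
    exact_mod_cast h1.trans hKn
  have hKK1 : K1 ≤ ⌊c * n⌋₊ := by
    have h1 := hn7 n (by omega)
    exact_mod_cast h1.trans hKn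
  have hsub : (univ.filter fun φ : Fin (Δ * n) → Cl n =>
      ¬ (¬ Sat φ ∧ Hard3 {l | ∃ j, l = clist (φ j)} (n : ℝ) e (δ' / 2))) ⊆
      (univ.filter fun φ : Fin (Δ * n) → Cl n =>
      ¬ (¬ Sat φ ∧ PE n ⌊c * n⌋₊ {l | ∃ j, l = clist (φ j)})) := by
    intro φ hφ
    rw [mem_filter] at hφ ⊢
    refine ⟨hφ.1, fun hcon => hφ.2 ⟨hcon.1, ?_⟩⟩
    have hH := hK0 n ⌊c * n⌋₊ {l | ∃ j, l = clist (φ j)} hKK hcon.2 (by
      rintro l ⟨j, rfl⟩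
      have h3 := hK1 ⌊c * n⌋₊ hKK1
      simpa [clist] using h3)
    exact hard3_mono hH (hn2 n (by omega) _ hKn) (hn3 n (by omega) _ hKn) (hn4 n (by omega) _ hKn)
  exact_mod_cast card_le_card hsub

theorem shp3h (H : Hd3) : ∃ n0 : ℕ, ∃ Γ : (n : ℕ) → Set (List (Fin (16 * n) × Bool)),
    (∀ n, n0 ≤ n → (∀ l ∈ Γ n, l.length ≤ 16) ∧
      PE (16 * n) ⌊(1 / 10 ^ 6 : ℝ) * n⌋₊ (Γ n)) ∧
    (∀ e : ℝ, 0 < e → ∃ δ : ℝ, 0 < δ ∧ ∃ n1 : ℕ, ∀ n, n1 ≤ n → Hard3 (Γ n) (n : ℝ) e δ) ∧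
    ∀ F : Set (Fm ℕ), Pool.Agent.H90.UB.Compl F → ∃ Cc : ℕ, ∀ n, n0 ≤ n →
      ∃ (L : ℕ) (pf : Fin L → Fm (Fin (16 * n))), IsDer F (Cls (Γ n)) pf ∧
        (∃ i j, pf i = Fm.neg (pf j)) ∧
        ∑ i, (pf i).len ≤ Cc * (n ^ 2 * (Nat.log 2 n + 1) ^ 2) := by
  obtain ⟨n0, Γ, hΓ1, -, hΓ3⟩ := shp3
  refine ⟨n0, Γ, hΓ1, ?_, hΓ3⟩
  · intro e he
    obtain ⟨e', he'⟩ : ∃ e', e' = min (e / 2) (1 / 2) := ⟨_, rfl⟩
    have he0 : 0 < e' := by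
      rw [he']
      exact lt_min (by linarith) (by norm_num)
    have he1 : e' ≤ 1 / 2 := by
      rw [he']
      exact min_le_right _ _
    have he2 : e' < e := by
      have : e' ≤ e / 2 := by
        rw [he']
        exact min_le_left _ _
      linarith
    obtain ⟨δ', hδ', K0, hK0⟩ := H e' he0
    obtain ⟨n2, hn2⟩ := pow_cmp (c := 1 / 10 ^ 7) (a := δ' / 2) (b := δ') (by positivity) hδ'
      (by linarith)
    obtain ⟨n3, hn3⟩ := pow_cmp (c := 1 / 10 ^ 7) (a := 2 - e) (b := 2 - e') (by positivity)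
      (by linarith) (by linarith)
    obtain ⟨n4, hn4⟩ := pow_cmp (c := 1 / 10 ^ 7) (a := 4 - e) (b := 4 - e') (by positivity)
      (by linarith) (by linarith)
    have ht : Filter.Tendsto (fun n : ℕ => (1 / 10 ^ 7 : ℝ) * (n : ℝ)) Filter.atTop Filter.atTop :=
      tendsto_natCast_atTop_atTop.const_mul_atTop (by positivity)
    obtain ⟨n6, hn6⟩ := Filter.eventually_atTop.1 (ht.eventually_ge_atTop (K0 : ℝ))
    have ht2 : Filter.Tendsto (fun K : ℕ => (K : ℝ) ^ δ') Filter.atTop Filter.atTop :=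
      (tendsto_rpow_atTop hδ').comp tendsto_natCast_atTop_atTop
    obtain ⟨K1, hK1⟩ := Filter.eventually_atTop.1 (ht2.eventually_ge_atTop (16 : ℝ))
    obtain ⟨n7, hn7⟩ := Filter.eventually_atTop.1 (ht.eventually_ge_atTop (K1 : ℝ))
    refine ⟨δ' / 2, by linarith, n0 + 10 ^ 7 + n2 + n3 + n4 + n6 + n7, ?_⟩
    intro n hn
    obtain ⟨hlen, hPE⟩ := hΓ1 n (by omega)
    have hKn : (1 / 10 ^ 7 : ℝ) * n ≤ (⌊(1 / 10 ^ 6 : ℝ) * n⌋₊ : ℝ) := by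
      have h1 : (1 / 10 ^ 6 : ℝ) * n < ⌊(1 / 10 ^ 6 : ℝ) * n⌋₊ + 1 := Nat.lt_floor_add_one _
      have h2 : (10 ^ 7 : ℝ) ≤ n := by
        have h3 : 10 ^ 7 ≤ n := by omega
        exact_mod_cast h3
      have h4 : (1 : ℝ) + (1 / 10 ^ 7 : ℝ) * n ≤ (1 / 10 ^ 6 : ℝ) * n := by
        linarith
      linarith
    have hKK : K0 ≤ ⌊(1 / 10 ^ 6 : ℝ) * n⌋₊ := by
      have h1 := hn6 n (by omega)
      exact_mod_cast h1.trans hKn
    have hKK1 : K1 ≤ ⌊(1 / 10 ^ 6 : ℝ) * n⌋₊ := by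
      have h1 := hn7 n (by omega)
      exact_mod_cast h1.trans hKn
    have hH := hK0 (16 * n) ⌊(1 / 10 ^ 6 : ℝ) * n⌋₊ (Γ n) hKK hPE (by
      intro l hl
      have h3 := hK1 _ hKK1
      have h4 : (l.length : ℝ) ≤ 16 := by exact_mod_cast hlen l hl
      exact h4.trans h3)
    exact hard3_mono hH (hn2 n (by omega) _ hKn) (hn3 n (by omega) _ hKn) (hn4 n (by omega) _ hKn)

end Pool.H63.ZS
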