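import Mathlib
import Pool.Agent.H81.QG.Glue

set_option autoImplicit false

/-!
# Normal forms: no double negations

`nf A`: the formula `A` without double negations; it has at most `4 * leaves` symbols. An approximate
valuation composed with `nf` is an approximate valuation with the same constants.
-/

namespace Pool.H63.ZS

open Finset Classical Pool.Agent.H3.Frg Pool.Agent.H3.Frg2 Pool.Agent.H81.QG

variable {ι : Type}

/-- The negation, without a double negation. -/
def ng : Fm ι → Fm ι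
  | .neg C => C
  | .var i => .neg (.var i)
  | .imp A B => .neg (.imp A B)

/-- The normal form. -/
def nf : Fm ι → Fm ι
  | .var i => .var i
  | .neg A => ng (nf A)
  | .imp A B => .imp (nf A) (nf B)

/-- No negation at the top. -/
def nn : Fm ι → Prop
  | .neg _ => False
  | _ => True

theorem nf_ok (A : Fm ι) : (nf A).leaves = A.leaves ∧ 1 ≤ A.leaves ∧
    ((nn (nf A) ∧ (nf A).len + 3 ≤ 4 * A.leaves) ∨
      ∃ C, nf A = .neg C ∧ nn C ∧ C.len + 3 ≤ 4 * A.leaves) := by
  induction A with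
  | var i => exact ⟨rfl, le_rfl, Or.inl ⟨trivial, le_rfl⟩⟩
  | neg A ih =>
    obtain ⟨h1, h2, h3⟩ := ih
    have hl : (Fm.neg A).leaves = A.leaves := rfl
    have hn : nf (Fm.neg A) = ng (nf A) := rfl
    rw [hl, hn, ← h1]
    rw [← h1] at h2 h3
    obtain ⟨B, hB⟩ : ∃ B, B = nf A := ⟨_, rfl⟩
    rw [← hB] at h2 h3 ⊢
    cases B with
    | var i =>
      refine ⟨rfl, h2, Or.inr ⟨.var i, rfl, trivial, le_rfl⟩⟩
    | neg C =>
      rcases h3 with ⟨h, -⟩ | ⟨C', hC', h4, h5⟩
      · exact absurd h id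
      · have e : C = C' := by injection hC'
        subst e
        exact ⟨rfl, h2, Or.inl ⟨h4, h5⟩⟩
    | imp P Q =>
      rcases h3 with ⟨-, h⟩ | ⟨C', hC', -⟩
      · exact ⟨rfl, h2, Or.inr ⟨.imp P Q, rfl, trivial, h⟩⟩
      · exact absurd hC' (by intro h; injection h)
  | imp A B ihA ihB =>
    obtain ⟨a1, a2, a3⟩ := ihA
    obtain ⟨b1, b2, b3⟩ := ihB
    have hl : (Fm.imp A B).leaves = A.leaves + B.leaves := rfl
    have hn : nf (Fm.imp A B) = Fm.imp (nf A) (nf B) := rfl
    have key : ∀ P : Fm ι, ((nn (nf P) ∧ (nf P).len + 3 ≤ 4 * P.leaves) ∨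
        ∃ C, nf P = .neg C ∧ nn C ∧ C.len + 3 ≤ 4 * P.leaves) → (nf P).len + 2 ≤ 4 * P.leaves := by
      rintro P (⟨-, h⟩ | ⟨C, hC, -, h⟩)
      · omega
      · rw [hC]
        show C.len + 1 + 2 ≤ _
        exact h
    have a4 := key A a3
    have b4 := key B b3
    rw [hl, hn]
    refine ⟨?_, by omega, Or.inl ⟨trivial, ?_⟩⟩
    · show (nf A).leaves + (nf B).leaves = _
      rw [a1, b1]
    · show (nf A).len + (nf B).len + 1 + 3 ≤ _
      omega

theorem nf_leaves (A : Fm ι) : (nf A).leaves = A.leaves := (nf_ok A).1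

theorem leaves_pos (A : Fm ι) : 1 ≤ A.leaves := (nf_ok A).2.1

theorem nf_len (A : Fm ι) : (nf A).len ≤ 4 * A.leaves := by
  rcases (nf_ok A).2.2 with ⟨-, h⟩ | ⟨C, hC, -, h⟩
  · omega
  · rw [hC]
    show C.len + 1 ≤ _
    omega

variable {R H : Type} [CommRing R] [Algebra ℝ R] [NormedAddCommGroup H] [InnerProductSpace ℝ H]
variable {cl : R →ₗ[ℝ] H} {dg : ℕ → Submodule ℝ R} {K : ℕ}

theorem vi_nf {V : Fm ι → R} {y : ι → R} {W s k : ℕ} {η : ℝ} (h : VI cl dg V y W s k η) :
    VI cl dg (fun A => V (nf A)) y W s k η := by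
  refine ⟨fun F hF => h.deg _ (by rw [nf_leaves]; exact hF), h.degy, h.idy,
    fun F hF => h.idem _ (by rw [nf_leaves]; exact hF), fun i => h.var i, ?_, ?_⟩
  · intro F hF
    have hF' : (nf F).leaves ≤ s := by rw [nf_leaves]; exact hF
    show Sml cl dg k η (V (ng (nf F)) - (1 - V (nf F)))
    obtain ⟨B, hB⟩ : ∃ B, B = nf F := ⟨_, rfl⟩
    rw [← hB] at hF' ⊢
    cases B with
    | var i => exact h.neg _ hF'
    | neg C =>
      have h1 : C.leaves ≤ s := hF'
      have h2 := h.neg C h1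
      have e : V (ng (.neg C)) - (1 - V (.neg C)) = V (.neg C) - (1 - V C) := by
        show V C - (1 - V (.neg C)) = _
        ring
      rw [e]
      exact h2
    | imp P Q => exact h.neg _ hF'
  · intro A B hAB
    refine h.imp (nf A) (nf B) ?_
    show (nf A).leaves + (nf B).leaves ≤ s
    rw [nf_leaves, nf_leaves]
    exact hAB

end Pool.H63.ZS
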