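import Mathlib
import Pool.Agent.H81.QG.Chain
import Pool.Agent.H81.QG.Glue
import Pool.Agent.H63.ZS.Nf

set_option autoImplicit false

/-!
# Conjunctions of finite sets of formulas

The first part is a copy of the lemmas in `Pool/Agent/H6/QL/Sps.lean` (helper6), which are private there.
`VC V l`: the value of the conjunction of the formulas in the list `l`. `sz M`: the total size of a finite set
of formulas.
-/

namespace Pool.H63.ZS

open Finset Classical Pool.Agent.H3.Frg Pool.Agent.H3.Frg2 Pool.Agent.H81.QG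

variable {R H ι : Type} [CommRing R] [Algebra ℝ R] [NormedAddCommGroup H] [InnerProductSpace ℝ H]
variable {cl : R →ₗ[ℝ] H} {dg : ℕ → Submodule ℝ R} {K : ℕ}

/-- The conjunction of `A` and the formulas in the list. -/
def cF : Fm ι → List (Fm ι) → Fm ι
  | A, [] => A
  | A, B :: l => .neg (.imp (cF B l) (.neg A))

theorem cF_leaves (A : Fm ι) (l : List (Fm ι)) :
    (cF A l).leaves = A.leaves + (l.map Fm.leaves).sum := by
  induction l generalizing A with
  | nil => simp [cF]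
  | cons B l ih =>
    show (cF B l).leaves + A.leaves = _
    rw [ih, List.map_cons, List.sum_cons]
    omega

/-- The value of the conjunction of the formulas in the list. -/
def VC (V : Fm ι → R) : List (Fm ι) → R
  | [] => 1
  | A :: l => V (cF A l)

def ls (l : List (Fm ι)) : ℕ := (l.map Fm.leaves).sum

theorem ls_cons (A : Fm ι) (l : List (Fm ι)) : ls (A :: l) = A.leaves + ls l := by
  unfold ls
  rw [List.map_cons, List.sum_cons]

theorem leaves_le_ls {l : List (Fm ι)} {A : Fm ι} (h : A ∈ l) : A.leaves ≤ ls l := by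
  induction l with
  | nil => simp at h
  | cons B l ih =>
    rw [ls_cons]
    rcases List.mem_cons.mp h with rfl | h
    · omega
    · have := ih h
      omega

theorem length_le_ls (l : List (Fm ι)) : l.length ≤ ls l := by
  induction l with
  | nil => simp
  | cons B l ih =>
    rw [ls_cons, List.length_cons]
    have := leaves_pos B
    omega

section

variable {V : Fm ι → R} {y : ι → R} {W s k : ℕ} {η : ℝ}

theorem vc_mem (hL : Liar cl dg K) (hV : VI cl dg V y W s k η) {l : List (Fm ι)}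
    (hl : ls l ≤ s) : VC V l ∈ dg W := by
  cases l with
  | nil => exact hL.mono (Nat.zero_le W) hL.one
  | cons A l =>
    refine hV.deg _ ?_
    rw [cF_leaves]
    rw [ls_cons] at hl
    exact hl

theorem vc_bd (hL : Liar cl dg K) (hV : VI cl dg V y W s k η) (hη : 0 ≤ η)
    (hK : k + 2 * W ≤ K) {l : List (Fm ι)} (hl : ls l ≤ s) :
    Sml cl dg k (1 + η) (VC V l) ∧ Sml cl dg k (1 + η) (1 - VC V l) := by
  cases l with
  | nil =>
    refine ⟨Sml.one' (by linarith), ?_⟩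
    show Sml cl dg k (1 + η) (1 - 1)
    rw [sub_self]
    exact Sml.zero (by linarith)
  | cons A l =>
    have h1 : (cF A l).leaves ≤ s := by
      rw [cF_leaves]
      rw [ls_cons] at hl
      exact hl
    exact vbd hL (hV.deg _ h1) hη (hV.idem _ h1) hK

theorem v_bd (hL : Liar cl dg K) (hV : VI cl dg V y W s k η) (hη : 0 ≤ η)
    (hK : k + 2 * W ≤ K) {A : Fm ι} (hl : A.leaves ≤ s) :
    Sml cl dg k (1 + η) (V A) ∧ Sml cl dg k (1 + η) (1 - V A) :=
  vbd hL (hV.deg _ hl) hη (hV.idem _ hl) hK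

theorem vc_cons (hL : Liar cl dg K) (hV : VI cl dg V y W s k η) (hη : 0 ≤ η)
    (hη1 : η ≤ 1) (hK : k + 2 * W ≤ K) {A : Fm ι} {l : List (Fm ι)} (hl : ls (A :: l) ≤ s)
    {k' : ℕ} (hk : k' + W ≤ k) : Sml cl dg k' (10 * η) (VC V (A :: l) - VC V l * V A) := by
  cases l with
  | nil =>
    show Sml cl dg k' (10 * η) (V A - 1 * V A)
    rw [one_mul, sub_self]
    exact Sml.zero (by linarith)
  | cons B l =>
    show Sml cl dg k' (10 * η) (V (.neg (.imp (cF B l) (.neg A))) - V (cF B l) * V A)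
    refine and_sml hL hV hη hη1 hK ?_ hk
    rw [ls_cons, ls_cons] at hl
    rw [cF_leaves]
    unfold ls at hl
    omega

/-- (i) the conjunction implies its members -/
theorem vc_in (hL : Liar cl dg K) (hV : VI cl dg V y W s k η) (hη : 0 ≤ η)
    (hη1 : η ≤ 1) (hK : k + 2 * W ≤ K) {k' : ℕ} (hk : k' + 3 * W ≤ k) {B : Fm ι}
    (l : List (Fm ι)) (hl : ls l ≤ s) (hB : B ∈ l) :
    Sml cl dg k' (22 * η * l.length * (1 + η) ^ l.length) (VC V l * (1 - V B)) := by
  induction l with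
  | nil => simp at hB
  | cons A l ih =>
    have hl' : ls l ≤ s := by rw [ls_cons] at hl; omega
    have hA : A.leaves ≤ s := by rw [ls_cons] at hl; omega
    have hBs : B.leaves ≤ s := le_trans (leaves_le_ls hB) hl
    have hn : (0 : ℝ) ≤ l.length := Nat.cast_nonneg _
    have hp : (1 : ℝ) ≤ (1 + η) ^ l.length := one_le_pow₀ (by linarith)
    obtain ⟨b1, b2⟩ := v_bd hL hV hη hK hBs
    obtain ⟨a1, a2⟩ := v_bd hL hV hη hK hA
    have mB : 1 - V B ∈ dg W := sub_mem (hL.mono (Nat.zero_le W) hL.one) (hV.deg B hBs)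
    have t1 : Sml cl dg (k' + W) (10 * η) (VC V (A :: l) - VC V l * V A) :=
      vc_cons hL hV hη hη1 hK hl (by omega)
    have t2 : Sml cl dg k' (10 * η * (1 + η)) ((1 - V B) * (VC V (A :: l) - VC V l * V A)) :=
      Sml.mulb hL t1 (by linarith) mB (b2.mono hL (by omega) le_rfl) le_rfl
    rw [List.length_cons, pow_succ]
    push_cast
    rcases List.mem_cons.mp hB with rfl | hB'
    · have t3 : Sml cl dg (k' + W) η (V B * V B - V B) := (hV.idem B hA).mono hL (by omega) le_rfl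
      have t4 : Sml cl dg k' (η * (1 + η)) (VC V l * (V B * V B - V B)) :=
        Sml.mulb hL t3 hη (vc_mem hL hV hl')
          ((vc_bd hL hV hη hK hl').1.mono hL (by omega) le_rfl) le_rfl
      have e : VC V (B :: l) * (1 - V B) =
          (1 - V B) * (VC V (B :: l) - VC V l * V B) - VC V l * (V B * V B - V B) := by ring
      rw [e]
      refine (t2.sub t4).mono hL le_rfl ?_
      have h1 : 22 * η * 1 * (1 + η) ≤ 22 * η * (l.length + 1) * ((1 + η) ^ l.length * (1 + η)) := by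
        have h2 : 1 * (1 + η) ≤ (1 + η) ^ l.length * (1 + η) :=
          mul_le_mul_of_nonneg_right hp (by linarith)
        have h3 : 22 * η * 1 ≤ 22 * η * (l.length + 1) := by nlinarith
        calc 22 * η * 1 * (1 + η) ≤ 22 * η * (l.length + 1) * (1 + η) :=
              mul_le_mul_of_nonneg_right h3 (by linarith)
          _ ≤ _ := mul_le_mul_of_nonneg_left (by linarith) (by positivity)
      nlinarith
    · have t3 := ih hl' hB'
      have m3 : VC V l * (1 - V B) ∈ dg (W + W) := hL.mul _ _ _ _ (vc_mem hL hV hl') mB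
      have t4 : Sml cl dg k' ((1 + η) * (22 * η * l.length * (1 + η) ^ l.length))
          (V A * (VC V l * (1 - V B))) :=
        Sml.mula hL t3 m3 (by linarith) a1 (by omega)
      have e : VC V (A :: l) * (1 - V B) =
          (1 - V B) * (VC V (A :: l) - VC V l * V A) + V A * (VC V l * (1 - V B)) := by ring
      rw [e]
      refine (t2.add t4).mono hL le_rfl ?_
      have h1 : 22 * η * 1 * (1 + η) ≤ 22 * η * 1 * ((1 + η) ^ l.length * (1 + η)) := by
        have h2 : 1 * (1 + η) ≤ (1 + η) ^ l.length * (1 + η) :=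
          mul_le_mul_of_nonneg_right hp (by linarith)
        exact mul_le_mul_of_nonneg_left (by linarith) (by positivity)
      nlinarith

/-- (iii) what implies all members implies the conjunction -/
theorem vc_all (hL : Liar cl dg K) (hV : VI cl dg V y W s k η) (hη : 0 ≤ η)
    (hη1 : η ≤ 1) (hK : k + 2 * W ≤ K) {k' : ℕ} (hk : k' + 3 * W ≤ k) {P : R} {α : ℝ}
    (hα : 0 ≤ α) (hP : P ∈ dg W) (bP : Sml cl dg k 2 P) (l : List (Fm ι)) (hl : ls l ≤ s)
    (h : ∀ B ∈ l, Sml cl dg k' α (P * (1 - V B))) :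
    Sml cl dg k' ((α + 20 * η) * l.length * (1 + η) ^ l.length) (P * (1 - VC V l)) := by
  induction l with
  | nil =>
    show Sml cl dg k' _ (P * (1 - 1))
    rw [sub_self, mul_zero]
    refine Sml.zero ?_
    simp
  | cons A l ih =>
    have hl' : ls l ≤ s := by rw [ls_cons] at hl; omega
    have hA : A.leaves ≤ s := by rw [ls_cons] at hl; omega
    have hn : (0 : ℝ) ≤ l.length := Nat.cast_nonneg _
    have hp : (1 : ℝ) ≤ (1 + η) ^ l.length := one_le_pow₀ (by linarith)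
    obtain ⟨a1, a2⟩ := v_bd hL hV hη hK hA
    have t1 : Sml cl dg (k' + W) (10 * η) (VC V (A :: l) - VC V l * V A) :=
      vc_cons hL hV hη hη1 hK hl (by omega)
    have t2 : Sml cl dg k' (10 * η * 2) (P * (VC V (A :: l) - VC V l * V A)) :=
      Sml.mulb hL t1 (by linarith) hP (bP.mono hL (by omega) le_rfl) le_rfl
    have t3 := ih hl' fun B hB => h B (List.mem_cons_of_mem _ hB)
    have m1 : 1 - VC V l ∈ dg W := sub_mem (hL.mono (Nat.zero_le W) hL.one) (vc_mem hL hV hl')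
    have m3 : P * (1 - VC V l) ∈ dg (W + W) := hL.mul _ _ _ _ hP m1
    have t4 : Sml cl dg k' ((1 + η) * ((α + 20 * η) * l.length * (1 + η) ^ l.length))
        (V A * (P * (1 - VC V l))) := Sml.mula hL t3 m3 (by linarith) a1 (by omega)
    have t5 := h A List.mem_cons_self
    have e : P * (1 - VC V (A :: l)) = P * (1 - V A) + V A * (P * (1 - VC V l)) -
        P * (VC V (A :: l) - VC V l * V A) := by ring
    rw [e]
    refine ((t5.add t4).sub t2).mono hL le_rfl ?_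
    rw [List.length_cons, pow_succ]
    push_cast
    have h2 : 1 * 1 ≤ (1 + η) ^ l.length * (1 + η) :=
      mul_le_mul hp (by linarith) (by norm_num) (by linarith)
    have h3 : (α + 20 * η) * (1 * 1) ≤ (α + 20 * η) * ((1 + η) ^ l.length * (1 + η)) :=
      mul_le_mul_of_nonneg_left h2 (by linarith)
    nlinarith

/-- (ii) a step: what was on the blackboard implies the new line -/
theorem new_line (hL : Liar cl dg K) (hW : 1 ≤ W) (hV : VI cl dg V y W s k η) (hη : 0 ≤ η)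
    (hη1 : η ≤ 1) (hK : k + 2 * W ≤ K) {ℓ : ℕ}
    {Sch : Set (Fm ℕ)} {Γ : Set (Fm ι)} (hS : ∀ ψ ∈ Sch, ψ.len ≤ ℓ ∧ ∀ x, ψ.eval x = true)
    (hΓ : ∀ A ∈ Γ, A.len ≤ ℓ ∧ ∀ p ∈ dg k, cl ((1 - ev y A) * p) = 0)
    {k' : ℕ} (hk : k' + (2 * ℓ + 5) * W ≤ k) {n : ℕ} (hn : (1 + η) ^ n ≤ 2)
    (l : List (Fm ι)) (hl : ls l ≤ s) (hln : l.length ≤ n) {A : Fm ι} (hAs : A.leaves ≤ s)
    (hA : A ∈ Γ ∨ (∃ ψ ∈ Sch, ∃ σ : ℕ → Fm ι, A = ψ.bind σ) ∨ ∃ B ∈ l, Fm.imp B A ∈ l) :
    Sml cl dg k' (300 * (n + 1) * 100 ^ ℓ * η) (VC V l * (1 - V A)) := by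
  have hp : (1 : ℝ) ≤ 100 ^ ℓ := one_le_pow₀ (by norm_num)
  have hn0 : (0 : ℝ) ≤ n := Nat.cast_nonneg _
  have hk5 : k' + 5 * W ≤ k := by
    have : 5 * W ≤ (2 * ℓ + 5) * W := Nat.mul_le_mul_right W (by omega)
    omega
  have mP : VC V l ∈ dg W := vc_mem hL hV hl
  have bP := (vc_bd hL hV hη hK hl).1
  have mA : 1 - V A ∈ dg W := sub_mem (hL.mono (Nat.zero_le W) hL.one) (hV.deg A hAs)
  have key : ∀ r : R, Sml cl dg (k' + W) (100 ^ ℓ * η) r →
      Sml cl dg k' (300 * (n + 1) * 100 ^ ℓ * η) (VC V l * r) := by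
    intro r hr
    refine (Sml.mulb hL hr (by positivity) mP (bP.mono hL (by omega) le_rfl) le_rfl).mono hL le_rfl ?_
    have h1 : 100 ^ ℓ * η * (1 + η) ≤ 100 ^ ℓ * η * 2 :=
      mul_le_mul_of_nonneg_left (by linarith) (by positivity)
    have h2 : (100 ^ ℓ * η) * 2 ≤ (100 ^ ℓ * η) * (300 * (n + 1)) :=
      mul_le_mul_of_nonneg_left (by linarith) (by positivity)
    nlinarith
  rcases hA with hA | ⟨ψ, hψ, σ, rfl⟩ | ⟨B, hB, hBA⟩
  · obtain ⟨h1, h2⟩ := hΓ A hA
    refine key _ ((ax_sml hL hW hV hη hη1 hK A h2 hAs (k' := k' + W) ?_).mono hL le_rfl ?_)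
    · have : A.len * W ≤ (2 * ℓ + 4) * W := Nat.mul_le_mul_right W (by omega)
      have h3 : (2 * ℓ + 5) * W = (2 * ℓ + 4) * W + W := by ring
      omega
    · exact mul_le_mul_of_nonneg_right (pow_le_pow_right₀ (by norm_num) h1) hη
  · obtain ⟨h1, h2⟩ := hS ψ hψ
    refine key _ ((inst_sml hL hV hη hη1 hK ψ σ h2 hAs (k' := k' + W) ?_).mono hL le_rfl ?_)
    · have : 2 * ψ.len * W ≤ (2 * ℓ + 4) * W := Nat.mul_le_mul_right W (by omega)
      have h3 : (2 * ℓ + 5) * W = (2 * ℓ + 4) * W + W := by ring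
      omega
    · exact mul_le_mul_of_nonneg_right (pow_le_pow_right₀ (by norm_num) h1) hη
  · have hIs : (Fm.imp B A).leaves ≤ s := le_trans (leaves_le_ls hBA) hl
    have hBs : B.leaves ≤ s := le_trans (leaves_le_ls hB) hl
    obtain ⟨a1, a2⟩ := v_bd hL hV hη hK hAs
    obtain ⟨b1, b2⟩ := v_bd hL hV hη hK hBs
    obtain ⟨c1, c2⟩ := v_bd hL hV hη hK hIs
    have mB : V B ∈ dg W := hV.deg B hBs
    have hmono : ∀ a : ℝ, 0 ≤ a → a ≤ 1 + η → a ≤ 2 := fun a _ h => by linarith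
    have hc : ∀ C : Fm ι, C ∈ l → Sml cl dg (k' + 2 * W) (44 * (n + 1) * η) (VC V l * (1 - V C)) := by
      intro C hC
      refine (vc_in hL hV hη hη1 hK (by omega) l hl hC).mono hL le_rfl ?_
      have h1 : (l.length : ℝ) ≤ n := by exact_mod_cast hln
      have h2 : (1 + η) ^ l.length ≤ 2 :=
        (pow_le_pow_right₀ (by linarith) hln).trans hn
      have h3 : (0 : ℝ) ≤ l.length := Nat.cast_nonneg _
      calc 22 * η * l.length * (1 + η) ^ l.length ≤ 22 * η * l.length * 2 :=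
            mul_le_mul_of_nonneg_left h2 (by positivity)
        _ ≤ 44 * (n + 1) * η := by nlinarith
    have t1 : Sml cl dg (k' + W) (10 * η) (V B * V (Fm.imp B A) * (1 - V A)) :=
      mp_sml hL hV hη hη1 hK hIs (by omega)
    have t2 : Sml cl dg k' (10 * η * (1 + η)) (VC V l * (V B * V (Fm.imp B A) * (1 - V A))) :=
      Sml.mulb hL t1 (by linarith) mP (bP.mono hL (by omega) le_rfl) le_rfl
    have t3 : Sml cl dg k' (44 * (n + 1) * η * (1 + η)) ((1 - V A) * (VC V l * (1 - V B))) :=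
      Sml.mulb hL ((hc B hB).mono hL (by omega) le_rfl) (by positivity) mA
        (a2.mono hL (by omega) le_rfl) (k := k' + W) le_rfl
    have m4 : (1 - V A) * V B ∈ dg (W + W) := hL.mul _ _ _ _ mA mB
    have b4 : Sml cl dg k' ((1 + η) * (1 + η)) ((1 - V A) * V B) := by
      have h1 := Sml.mulb hL (b1.mono hL (show k' + W ≤ k by omega) le_rfl) (by linarith) mA
        (a2.mono hL (show k' ≤ k by omega) le_rfl) le_rfl
      exact h1
    have t4 : Sml cl dg k' (44 * (n + 1) * η * ((1 + η) * (1 + η)))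
        ((1 - V A) * V B * (VC V l * (1 - V (Fm.imp B A)))) :=
      Sml.mulb hL (hc _ hBA) (by positivity) m4 b4 (by omega)
    have e : VC V l * (1 - V A) = VC V l * (V B * V (Fm.imp B A) * (1 - V A)) +
        (1 - V A) * (VC V l * (1 - V B)) + (1 - V A) * V B * (VC V l * (1 - V (Fm.imp B A))) := by
      ring
    rw [e]
    refine ((t2.add t3).add t4).mono hL le_rfl ?_
    have h1 : (1 + η) * (1 + η) ≤ 4 := by nlinarith
    have h0 : 0 ≤ (n + 1 : ℝ) * η := by positivity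
    have h2 : 44 * (n + 1) * η * (1 + η) ≤ 88 * ((n + 1) * η) := by nlinarith
    have h3 : 44 * (n + 1) * η * ((1 + η) * (1 + η)) ≤ 176 * ((n + 1) * η) := by
      calc 44 * (n + 1) * η * ((1 + η) * (1 + η)) ≤ 44 * (n + 1) * η * 4 :=
            mul_le_mul_of_nonneg_left h1 (by positivity)
        _ = _ := by ring
    have h4 : 10 * η * (1 + η) ≤ 20 * ((n + 1) * η) := by nlinarith
    have h5 : (n + 1 : ℝ) * η ≤ (n + 1) * η * 100 ^ ℓ := le_mul_of_one_le_right h0 hp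
    nlinarith

/-- The total size. -/
noncomputable def sz (M : Finset (Fm ι)) : ℕ := ∑ A ∈ M, A.leaves

theorem ls_toList (M : Finset (Fm ι)) : ls M.toList = sz M := by
  unfold ls sz
  exact Finset.sum_map_toList M Fm.leaves

theorem toList_len (M : Finset (Fm ι)) : M.toList.length ≤ sz M := by
  rw [← ls_toList]
  exact length_le_ls _

theorem leaves_le_sz {M : Finset (Fm ι)} {A : Fm ι} (h : A ∈ M) : A.leaves ≤ sz M :=
  Finset.single_le_sum (f := fun B : Fm ι => B.leaves) (fun _ _ => Nat.zero_le _) h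

/-- One step: the new set implies the old set. -/
theorem cstep (hL : Liar cl dg K) (hW : 1 ≤ W) (hV : VI cl dg V y W s k η) (hη : 0 ≤ η)
    (hη1 : η ≤ 1) (hK : k + 2 * W ≤ K) {ℓ : ℕ}
    {Sch : Set (Fm ℕ)} {Γ : Set (Fm ι)} (hS : ∀ ψ ∈ Sch, ψ.len ≤ ℓ ∧ ∀ x, ψ.eval x = true)
    (hΓ : ∀ A ∈ Γ, A.len ≤ ℓ ∧ ∀ p ∈ dg k, cl ((1 - ev y A) * p) = 0)
    {k' : ℕ} (hk : k' + (2 * ℓ + 5) * W ≤ k) (hn : (1 + η) ^ s ≤ 2)
    {M M' : Finset (Fm ι)} (hM : sz M ≤ s) (hM' : sz M' ≤ s) {B : Fm ι}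
    (h1 : ∀ C ∈ M, C ∈ M' ∨ C = B)
    (h2 : B ∈ M → (B ∈ Γ ∨ (∃ ψ ∈ Sch, ∃ σ : ℕ → Fm ι, B = ψ.bind σ) ∨
      ∃ A ∈ M', Fm.imp A B ∈ M')) :
    Sml cl dg k' (640 * (s + 1) ^ 2 * (100 ^ ℓ * η))
      (VC V M'.toList * (1 - VC V M.toList)) := by
  have hs0 : (0 : ℝ) ≤ s := Nat.cast_nonneg _
  have hp : (1 : ℝ) ≤ 100 ^ ℓ := one_le_pow₀ (by norm_num)
  obtain ⟨ζ, hζ⟩ : ∃ ζ : ℝ, ζ = 100 ^ ℓ * η := ⟨_, rfl⟩
  have hζ0 : 0 ≤ ζ := by rw [hζ]; positivity
  have hηζ : η ≤ ζ := by rw [hζ]; exact le_mul_of_one_le_left hη hp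
  have hpow : ∀ n : ℕ, n ≤ s → (1 + η) ^ n ≤ 2 := fun n h =>
    (pow_le_pow_right₀ (by linarith) h).trans hn
  have hk3 : k' + 3 * W ≤ k := by
    have : 3 * W ≤ (2 * ℓ + 5) * W := Nat.mul_le_mul_right W (by omega)
    omega
  have hls : ls M.toList ≤ s := by rw [ls_toList]; exact hM
  have hls' : ls M'.toList ≤ s := by rw [ls_toList]; exact hM'
  have hlen : M.toList.length ≤ s := (toList_len _).trans hM
  have hlen' : M'.toList.length ≤ s := (toList_len _).trans hM'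
  have hin : ∀ C ∈ M', Sml cl dg k' (44 * (s + 1) * η) (VC V M'.toList * (1 - V C)) := by
    intro C hC
    refine (vc_in hL hV hη hη1 hK hk3 _ hls' (Finset.mem_toList.mpr hC)).mono hL le_rfl ?_
    have h1 : (M'.toList.length : ℝ) ≤ s := by exact_mod_cast hlen'
    have h2 : (1 + η) ^ M'.toList.length ≤ 2 := hpow _ hlen'
    have h3 : (0 : ℝ) ≤ M'.toList.length := Nat.cast_nonneg _
    calc 22 * η * M'.toList.length * (1 + η) ^ M'.toList.length
        ≤ 22 * η * M'.toList.length * 2 := mul_le_mul_of_nonneg_left h2 (by positivity)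
      _ ≤ 44 * (s + 1) * η := by nlinarith
  have hα : ∀ C ∈ M.toList, Sml cl dg k' (300 * (s + 1) * ζ) (VC V M'.toList * (1 - V C)) := by
    intro C hC
    rw [Finset.mem_toList] at hC
    rcases h1 C hC with hC' | rfl
    · refine (hin C hC').mono hL le_rfl ?_
      have h1 : 44 * ((s : ℝ) + 1) * η ≤ 44 * (s + 1) * ζ :=
        mul_le_mul_of_nonneg_left hηζ (by positivity)
      nlinarith [mul_nonneg (show (0 : ℝ) ≤ s + 1 by linarith) hζ0]
    · have hCs : C.leaves ≤ s := (leaves_le_sz hC).trans hM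
      have h3 : C ∈ Γ ∨ (∃ ψ ∈ Sch, ∃ σ : ℕ → Fm ι, C = ψ.bind σ) ∨
          ∃ A ∈ M'.toList, Fm.imp A C ∈ M'.toList := by
        rcases h2 hC with h | h | ⟨A, hA, hA'⟩
        · exact Or.inl h
        · exact Or.inr (Or.inl h)
        · exact Or.inr (Or.inr ⟨A, Finset.mem_toList.mpr hA, Finset.mem_toList.mpr hA'⟩)
      refine (new_line hL hW hV hη hη1 hK hS hΓ hk hn _ hls' hlen' hCs h3).mono hL le_rfl ?_
      rw [hζ]
      exact le_of_eq (by ring)
  have h3 := vc_all hL hV hη hη1 hK hk3 (by positivity) (vc_mem hL hV hls')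
    ((vc_bd hL hV hη hK hls').1.mono hL le_rfl (by linarith)) _ hls hα
  rw [← hζ]
  refine h3.mono hL le_rfl ?_
  have h4 : (1 + η) ^ M.toList.length ≤ 2 := hpow _ hlen
  have h5 : (M.toList.length : ℝ) ≤ s := by exact_mod_cast hlen
  have h6 : (0 : ℝ) ≤ M.toList.length := Nat.cast_nonneg _
  have h7 : 300 * ((s : ℝ) + 1) * ζ + 20 * η ≤ 320 * (s + 1) * ζ := by
    nlinarith [mul_nonneg hs0 hζ0]
  calc (300 * ((s : ℝ) + 1) * ζ + 20 * η) * M.toList.length * (1 + η) ^ M.toList.length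
      ≤ (320 * (s + 1) * ζ) * (s + 1) * 2 := by
        refine mul_le_mul (mul_le_mul h7 (by linarith) h6 (by positivity)) h4 (by positivity)
          (by positivity)
    _ = _ := by ring

/-- One step, for a vector. -/
theorem cstepv (hL : Liar cl dg K) (hW : 1 ≤ W) (hV : VI cl dg V y W s k η) (hη : 0 ≤ η)
    (hη1 : η ≤ 1) (hK : k + 2 * W ≤ K) {ℓ : ℕ}
    {Sch : Set (Fm ℕ)} {Γ : Set (Fm ι)} (hS : ∀ ψ ∈ Sch, ψ.len ≤ ℓ ∧ ∀ x, ψ.eval x = true)
    (hΓ : ∀ A ∈ Γ, A.len ≤ ℓ ∧ ∀ p ∈ dg k, cl ((1 - ev y A) * p) = 0)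
    {k' : ℕ} (hk : k' + (2 * ℓ + 5) * W ≤ k) (hn : (1 + η) ^ s ≤ 2)
    {M M' : Finset (Fm ι)} (hM : sz M ≤ s) (hM' : sz M' ≤ s) {B : Fm ι}
    (h1 : ∀ C ∈ M, C ∈ M' ∨ C = B)
    (h2 : B ∈ M → (B ∈ Γ ∨ (∃ ψ ∈ Sch, ∃ σ : ℕ → Fm ι, B = ψ.bind σ) ∨
      ∃ A ∈ M', Fm.imp A B ∈ M')) {p : R} (hp : p ∈ dg k') :
    ‖cl (VC V M'.toList * p)‖ ≤ (1 + η) * ‖cl (VC V M.toList * p)‖ +
      640 * (s + 1) ^ 2 * (100 ^ ℓ * η) * ‖cl p‖ := by
  have h3 := cstep hL hW hV hη hη1 hK hS hΓ hk hn hM hM' h1 h2 p hp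
  have hk3 : k' + 3 * W ≤ k := by
    have : 3 * W ≤ (2 * ℓ + 5) * W := Nat.mul_le_mul_right W (by omega)
    omega
  have hls : ls M.toList ≤ s := by rw [ls_toList]; exact hM
  have hls' : ls M'.toList ≤ s := by rw [ls_toList]; exact hM'
  have m1 : VC V M.toList * p ∈ dg k :=
    hL.mono (by omega) (hL.mul _ _ _ _ (vc_mem hL hV hls) hp)
  have h4 := (vc_bd hL hV hη hK hls').1 _ m1
  have e : VC V M'.toList * p = VC V M'.toList * (VC V M.toList * p) +
      VC V M'.toList * (1 - VC V M.toList) * p := by ring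
  rw [e, map_add]
  exact (norm_add_le _ _).trans (add_le_add h4 h3)

/-- If all formulas have value nearly `1` at `p` then so does the conjunction. -/
theorem vc_last (hL : Liar cl dg K) (hV : VI cl dg V y W s k η) (hη : 0 ≤ η)
    (hη1 : η ≤ 1) (hK : k + 2 * W ≤ K) {k' : ℕ} (hk : k' + 3 * W ≤ k) {p : R} (hp : p ∈ dg k')
    {β : ℝ} (hβ : 0 ≤ β) (l : List (Fm ι)) (hl : ls l ≤ s)
    (h : ∀ B ∈ l, ‖cl ((1 - V B) * p)‖ ≤ β) :
    ‖cl ((1 - VC V l) * p)‖ ≤ (β + 10 * η * ‖cl p‖) * l.length * (1 + η) ^ l.length := by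
  induction l with
  | nil =>
    show ‖cl ((1 - 1) * p)‖ ≤ _
    rw [sub_self, zero_mul, map_zero, norm_zero]
    simp
  | cons A l ih =>
    have hl' : ls l ≤ s := by rw [ls_cons] at hl; omega
    have hA : A.leaves ≤ s := by rw [ls_cons] at hl; omega
    have hn : (0 : ℝ) ≤ l.length := Nat.cast_nonneg _
    have hp1 : (1 : ℝ) ≤ (1 + η) ^ l.length := one_le_pow₀ (by linarith)
    obtain ⟨a1, a2⟩ := v_bd hL hV hη hK hA
    have t1 := vc_cons hL hV hη hη1 hK hl (k' := k') (by omega) p hp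
    have t3 := ih hl' fun B hB => h B (List.mem_cons_of_mem _ hB)
    have m1 : 1 - VC V l ∈ dg W := sub_mem (hL.mono (Nat.zero_le W) hL.one) (vc_mem hL hV hl')
    have m3 : (1 - VC V l) * p ∈ dg k := hL.mono (by omega) (hL.mul _ _ _ _ m1 hp)
    have t4 := a1 _ m3
    have t5 := h A List.mem_cons_self
    have e : (1 - VC V (A :: l)) * p = (1 - V A) * p + V A * ((1 - VC V l) * p) -
        (VC V (A :: l) - VC V l * V A) * p := by ring
    rw [e, map_sub, map_add]
    have t6 := norm_sub_le (cl ((1 - V A) * p) + cl (V A * ((1 - VC V l) * p)))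
      (cl ((VC V (A :: l) - VC V l * V A) * p))
    have t7 := norm_add_le (cl ((1 - V A) * p)) (cl (V A * ((1 - VC V l) * p)))
    have t8 : (1 + η) * ‖cl ((1 - VC V l) * p)‖ ≤
        (1 + η) * ((β + 10 * η * ‖cl p‖) * l.length * (1 + η) ^ l.length) :=
      mul_le_mul_of_nonneg_left t3 (by linarith)
    rw [List.length_cons, pow_succ]
    push_cast
    have hq : 0 ≤ ‖cl p‖ := norm_nonneg _
    have hc : 0 ≤ β + 10 * η * ‖cl p‖ := by positivity
    have h2 : 1 * 1 ≤ (1 + η) ^ l.length * (1 + η) :=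
      mul_le_mul hp1 (by linarith) (by norm_num) (by linarith)
    have h3 : (β + 10 * η * ‖cl p‖) * (1 * 1) ≤
        (β + 10 * η * ‖cl p‖) * ((1 + η) ^ l.length * (1 + η)) :=
      mul_le_mul_of_nonneg_left h2 hc
    nlinarith

end

end Pool.H63.ZS
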