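import Mathlib
import Pool.Agent.H63.ZS.Cnj
import Pool.Agent.H3.Frg4.Defs4

set_option autoImplicit false

/-!
# Counting the lines

`occ pf i A`: the formula `A` occurs before the line `i`. `pot pf i`: the sum of the sizes of the formulas
`A → B` for all `B` which occur for the first time in a line `≥ i` and are obtained there by modus ponens from
`A`, `A → B`. It is at most the total size, because `B` is determined by `A → B`.
-/

namespace Pool.H63.ZS

open Finset Classical Pool.Agent.H3.Frg Pool.Agent.H3.Frg2 Pool.Agent.H3.Frg4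

variable {ι : Type} {L : ℕ}

/-- The formula occurs before the line `i`. -/
def occ (pf : Fin L → Fm ι) (i : ℕ) (A : Fm ι) : Prop := ∃ j : Fin L, (j : ℕ) < i ∧ pf j = A

/-- The line is obtained by modus ponens from the lines `j`, `k`. -/
def mpl (pf : Fin L → Fm ι) (i j k : Fin L) : Prop := j < i ∧ k < i ∧ pf k = Fm.imp (pf j) (pf i)

/-- The line with the implication. -/
noncomputable def cc (pf : Fin L → Fm ι) (i : Fin L) : Fin L :=
  if h : ∃ k j, mpl pf i j k then h.choose else i

/-- The lines `≥ i` which are new and obtained by modus ponens. -/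
noncomputable def nw (pf : Fin L → Fm ι) (i : ℕ) : Finset (Fin L) :=
  univ.filter fun j : Fin L => i ≤ (j : ℕ) ∧ ¬ occ pf j (pf j) ∧ ∃ k j', mpl pf j j' k

/-- The potential. -/
noncomputable def pot (pf : Fin L → Fm ι) (i : ℕ) : ℕ := ∑ j ∈ nw pf i, (pf (cc pf j)).leaves

theorem mem_nw {pf : Fin L → Fm ι} {i : ℕ} {j : Fin L} :
    j ∈ nw pf i ↔ i ≤ (j : ℕ) ∧ ¬ occ pf j (pf j) ∧ ∃ k j', mpl pf j j' k := by
  unfold nw
  rw [mem_filter]
  exact ⟨fun h => h.2, fun h => ⟨mem_univ _, h⟩⟩

theorem cc_spec {pf : Fin L → Fm ι} {i : Fin L} (h : ∃ k j, mpl pf i j k) :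
    ∃ j, mpl pf i j (cc pf i) := by
  unfold cc
  rw [dif_pos h]
  exact h.choose_spec

theorem pot_le (pf : Fin L → Fm ι) (i : ℕ) : pot pf i ≤ ∑ j, (pf j).leaves := by
  have hinj : ∀ a ∈ nw pf i, ∀ b ∈ nw pf i, cc pf a = cc pf b → a = b := by
    intro a ha b hb hab
    obtain ⟨-, a1, a2⟩ := mem_nw.1 ha
    obtain ⟨-, b1, b2⟩ := mem_nw.1 hb
    obtain ⟨ja, -, -, a3⟩ := cc_spec a2
    obtain ⟨jb, -, -, b3⟩ := cc_spec b2
    rw [hab, b3] at a3
    have e : pf b = pf a := by
      injection a3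
    rcases lt_trichotomy a b with h | h | h
    · exact absurd ⟨a, h, e.symm⟩ b1
    · exact h
    · exact absurd ⟨b, h, e⟩ a1
  unfold pot
  calc ∑ j ∈ nw pf i, (pf (cc pf j)).leaves
      = ∑ k ∈ (nw pf i).image (cc pf), (pf k).leaves :=
        (Finset.sum_image (f := fun k => (pf k).leaves) hinj).symm
    _ ≤ _ := Finset.sum_le_sum_of_subset_of_nonneg (Finset.subset_univ _)
        (fun _ _ _ => Nat.zero_le _)

theorem pot_anti (pf : Fin L → Fm ι) {i j : ℕ} (h : i ≤ j) : pot pf j ≤ pot pf i := by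
  unfold pot
  refine Finset.sum_le_sum_of_subset_of_nonneg ?_ (fun _ _ _ => Nat.zero_le _)
  intro x hx
  obtain ⟨h1, h2⟩ := mem_nw.1 hx
  exact mem_nw.2 ⟨h.trans h1, h2⟩

theorem pot_new {pf : Fin L → Fm ι} {i : Fin L} (h1 : ¬ occ pf i (pf i))
    (h2 : ∃ k j, mpl pf i j k) :
    pot pf ((i : ℕ) + 1) + (pf (cc pf i)).leaves ≤ pot pf i := by
  have h3 : i ∉ nw pf ((i : ℕ) + 1) := by
    intro h
    have := (mem_nw.1 h).1
    omega
  have h4 : ∑ j ∈ insert i (nw pf ((i : ℕ) + 1)), (pf (cc pf j)).leaves =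
      (pf (cc pf i)).leaves + ∑ j ∈ nw pf ((i : ℕ) + 1), (pf (cc pf j)).leaves :=
    Finset.sum_insert h3
  unfold pot
  rw [add_comm, ← h4]
  refine Finset.sum_le_sum_of_subset_of_nonneg ?_ (fun _ _ _ => Nat.zero_le _)
  intro x hx
  rcases Finset.mem_insert.1 hx with rfl | hx
  · exact mem_nw.2 ⟨le_rfl, h1, h2⟩
  · obtain ⟨h4, h5⟩ := mem_nw.1 hx
    exact mem_nw.2 ⟨by omega, h5⟩

private theorem sz_erase {M : Finset (Fm ι)} {B : Fm ι} (h : B ∈ M) :
    sz (M.erase B) + B.leaves = sz M := by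
  unfold sz
  rw [add_comm]
  exact Finset.add_sum_erase M (fun A : Fm ι => A.leaves) h

private theorem sz_ins (A : Fm ι) (M : Finset (Fm ι)) : sz (insert A M) ≤ A.leaves + sz M := by
  unfold sz
  by_cases h : A ∈ M
  · rw [Finset.insert_eq_of_mem h]
    exact Nat.le_add_left _ _
  · rw [Finset.sum_insert h]

/-- Going down through the lines. -/
theorem descent {pf : Fin L → Fm ι} {Sch : Set (Fm ℕ)} {Γ : Set (Fm ι)} (hpf : IsDer Sch Γ pf)
    {s Sg : ℕ} (hs : ∀ i, (pf i).leaves ≤ s) (v : Finset (Fm ι) → ℝ) {a b : ℝ} (ha : 1 ≤ a)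
    (hb : 0 ≤ b)
    (hstep : ∀ (M M' : Finset (Fm ι)) (B : Fm ι), sz M ≤ Sg → sz M' ≤ Sg →
      (∀ C ∈ M, C ∈ M' ∨ C = B) →
      (B ∈ M → (B ∈ Γ ∨ (∃ ψ ∈ Sch, ∃ σ : ℕ → Fm ι, B = ψ.bind σ) ∨
        ∃ A ∈ M', Fm.imp A B ∈ M')) → v M' ≤ a * v M + b)
    (j : Fin L) (hj : v {pf j} ≤ b) (hSg : 3 * s ≤ Sg) :
    v ∅ ≤ (L + 1) * b * a ^ L ∨ ∃ (i : ℕ) (M : Finset (Fm ι)), i ≤ (j : ℕ) ∧
      (∀ A ∈ M, occ pf i A) ∧ sz M ≤ Sg ∧ Sg < sz M + 2 * s ∧ v M ≤ (L + 1) * b * a ^ L ∧
      sz M + 2 * pot pf ((j : ℕ) + 1) ≤ s + 2 * pot pf i := by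
  have hbd : ∀ t : ℕ, t ≤ (j : ℕ) + 1 → ((t : ℝ) + 1) * b * a ^ t ≤ (L + 1) * b * a ^ L := by
    intro t ht
    have h1 : t ≤ L := by omega
    have h2 : (t : ℝ) ≤ L := by exact_mod_cast h1
    have h3 : a ^ t ≤ a ^ L := pow_le_pow_right₀ ha h1
    have h4 : 0 ≤ a ^ t := by positivity
    exact mul_le_mul (mul_le_mul_of_nonneg_right (by linarith) hb) h3 h4 (by positivity)
  have key : ∀ t : ℕ, ∀ i : ℕ, i + t = (j : ℕ) + 1 →
      (∃ (i : ℕ) (M : Finset (Fm ι)), i ≤ (j : ℕ) ∧
        (∀ A ∈ M, occ pf i A) ∧ sz M ≤ Sg ∧ Sg < sz M + 2 * s ∧ v M ≤ (L + 1) * b * a ^ L ∧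
        sz M + 2 * pot pf ((j : ℕ) + 1) ≤ s + 2 * pot pf i) ∨
      ∃ M : Finset (Fm ι), (∀ A ∈ M, occ pf i A) ∧ sz M + 2 * s ≤ Sg ∧
        v M ≤ ((t : ℝ) + 1) * b * a ^ t ∧
        sz M + 2 * pot pf ((j : ℕ) + 1) ≤ s + 2 * pot pf i := by
    intro t
    induction t with
    | zero =>
      intro i hi
      right
      have hi' : i = (j : ℕ) + 1 := by omega
      have h1 : sz {pf j} = (pf j).leaves := by
        unfold sz
        rw [Finset.sum_singleton]
      have h2 := hs j
      refine ⟨{pf j}, ?_, ?_, ?_, ?_⟩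
      · intro A hA
        rw [Finset.mem_singleton] at hA
        exact ⟨j, by omega, hA.symm⟩
      · rw [h1]
        omega
      · simpa using hj
      · rw [h1, hi']
        omega
    | succ t ih =>
      intro i hi
      have hiL : i < L := by omega
      rcases ih (i + 1) (by omega) with h | ⟨M, hM1, hM2, hM3, hM4⟩
      · exact Or.inl h
      obtain ⟨i', hi'⟩ : ∃ i' : Fin L, (i' : ℕ) = i := ⟨⟨i, hiL⟩, rfl⟩
      have hva : ∀ M' : Finset (Fm ι), v M' ≤ a * v M + b →
          v M' ≤ (((t + 1 : ℕ) : ℝ) + 1) * b * a ^ (t + 1) := by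
        intro M' h
        have h1 : a * v M ≤ a * (((t : ℝ) + 1) * b * a ^ t) :=
          mul_le_mul_of_nonneg_left hM3 (by linarith)
        have h2 : 1 ≤ a ^ (t + 1) := one_le_pow₀ ha
        have h3 : b * 1 ≤ b * a ^ (t + 1) := mul_le_mul_of_nonneg_left h2 hb
        have h4 : a * (((t : ℝ) + 1) * b * a ^ t) = ((t : ℝ) + 1) * b * a ^ (t + 1) := by
          rw [pow_succ]
          ring
        push_cast
        linarith
      have hpa : pot pf (i + 1) ≤ pot pf i := pot_anti pf (Nat.le_succ i)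
      by_cases hc : pf i' ∈ M ∧ ¬ occ pf i (pf i')
      · obtain ⟨hc1, hc2⟩ := hc
        have hocc : ∀ A ∈ M, A ≠ pf i' → occ pf i A := by
          intro A hA hne
          obtain ⟨x, hx1, hx2⟩ := hM1 A hA
          refine ⟨x, ?_, hx2⟩
          by_contra hcon
          have h1 : (x : ℕ) = (i' : ℕ) := by omega
          have h2 : x = i' := Fin.ext h1
          rw [h2] at hx2
          exact hne hx2.symm
        have hsz := sz_erase hc1
        have hax : (pf i' ∈ Γ ∨ ∃ ψ ∈ Sch, ∃ σ : ℕ → Fm ι, pf i' = ψ.bind σ) →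
            ∃ M : Finset (Fm ι), (∀ A ∈ M, occ pf i A) ∧ sz M + 2 * s ≤ Sg ∧
              v M ≤ (((t + 1 : ℕ) : ℝ) + 1) * b * a ^ (t + 1) ∧
              sz M + 2 * pot pf ((j : ℕ) + 1) ≤ s + 2 * pot pf i := by
          intro hax
          refine ⟨M.erase (pf i'), ?_, by omega, ?_, by omega⟩
          · intro A hA
            rw [Finset.mem_erase] at hA
            exact hocc A hA.2 hA.1
          · apply hva
            refine hstep M (M.erase (pf i')) (pf i') (by omega) (by omega) ?_ ?_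
            · intro C hC
              by_cases h : C = pf i'
              · exact Or.inr h
              · exact Or.inl (Finset.mem_erase.2 ⟨h, hC⟩)
            · intro _
              rcases hax with h | h
              · exact Or.inl h
              · exact Or.inr (Or.inl h)
        rcases hpf i' with h | h | ⟨x, y, hx, hy, hxy⟩
        · exact Or.inr (hax (Or.inl h))
        · exact Or.inr (hax (Or.inr h))
        · have hmp : ∃ k j, mpl pf i' j k := ⟨y, x, hx, hy, hxy⟩
          obtain ⟨x', hx1, hx2, hx3⟩ := cc_spec hmp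
          have hlv : (pf (cc pf i')).leaves = (pf x').leaves + (pf i').leaves := by
            rw [hx3]
            rfl
          have hcs := hs (cc pf i')
          have hpn : pot pf (i + 1) + (pf (cc pf i')).leaves ≤ pot pf i := by
            have h := pot_new (pf := pf) (i := i') (by rw [hi']; exact hc2) hmp
            rw [hi'] at h
            exact h
          obtain ⟨M', hM'⟩ : ∃ M', M' = insert (pf x') (insert (pf (cc pf i')) (M.erase (pf i'))) :=
            ⟨_, rfl⟩
          have hszM' : sz M' ≤ sz M + 2 * (pf x').leaves := by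
            rw [hM']
            have h1 := sz_ins (pf x') (insert (pf (cc pf i')) (M.erase (pf i')))
            have h2 := sz_ins (pf (cc pf i')) (M.erase (pf i'))
            omega
          have hM'1 : ∀ A ∈ M', occ pf i A := by
            intro A hA
            rw [hM', Finset.mem_insert, Finset.mem_insert, Finset.mem_erase] at hA
            rcases hA with rfl | rfl | ⟨h1, h2⟩
            · refine ⟨x', ?_, rfl⟩
              have : (x' : ℕ) < (i' : ℕ) := hx1
              omega
            · refine ⟨cc pf i', ?_, rfl⟩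
              have : (cc pf i' : ℕ) < (i' : ℕ) := hx2
              omega
            · exact hocc A h2 h1
          have hv : v M' ≤ (((t + 1 : ℕ) : ℝ) + 1) * b * a ^ (t + 1) := by
            apply hva
            refine hstep M M' (pf i') (by omega) (by omega) ?_ ?_
            · intro C hC
              by_cases h : C = pf i'
              · exact Or.inr h
              · left
                rw [hM']
                exact Finset.mem_insert_of_mem (Finset.mem_insert_of_mem
                  (Finset.mem_erase.2 ⟨h, hC⟩))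
            · intro _
              refine Or.inr (Or.inr ⟨pf x', ?_, ?_⟩)
              · rw [hM']
                exact Finset.mem_insert_self _ _
              · rw [hM', ← hx3]
                exact Finset.mem_insert_of_mem (Finset.mem_insert_self _ _)
          by_cases hfin : sz M' + 2 * s ≤ Sg
          · exact Or.inr ⟨M', hM'1, hfin, hv, by omega⟩
          · left
            refine ⟨i, M', by omega, hM'1, by omega, by omega, hv.trans (hbd (t + 1) (by omega)),
              by omega⟩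
      · right
        refine ⟨M, ?_, hM2, ?_, by omega⟩
        · intro A hA
          obtain ⟨x, hx1, hx2⟩ := hM1 A hA
          by_cases h : (x : ℕ) < i
          · exact ⟨x, h, hx2⟩
          · have h1 : (x : ℕ) = (i' : ℕ) := by omega
            have h2 : x = i' := Fin.ext h1
            rw [h2] at hx2
            by_contra hcon
            exact hc ⟨by rw [hx2]; exact hA, by rw [hx2]; exact hcon⟩
        · refine hM3.trans ?_
          have h1 : a ^ t ≤ a ^ (t + 1) := pow_le_pow_right₀ ha (Nat.le_succ t)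
          have h4 : 0 ≤ a ^ t := by positivity
          push_cast
          exact mul_le_mul (mul_le_mul_of_nonneg_right (by linarith) hb) h1 h4 (by positivity)
  rcases key ((j : ℕ) + 1) 0 (by omega) with h | ⟨M, hM1, -, hM3, -⟩
  · exact Or.inr h
  · left
    have hM : M = ∅ := by
      rw [Finset.eq_empty_iff_forall_notMem]
      intro A hA
      obtain ⟨x, hx, -⟩ := hM1 A hA
      omega
    rw [hM] at hM3
    exact hM3.trans (hbd _ le_rfl)

/-- Many phases need many lines. -/
theorem phases {pf : Fin L → Fm ι} {s Sg m : ℕ} (f : Fm ι → ℝ) {θ0 θm D : ℝ} (hD : 1 ≤ D)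
    (hθ0 : 0 ≤ θ0) (hSg : 3 * s ≤ Sg)
    (hph : ∀ (j : Fin L) (θ : ℝ), θm ≤ θ → θ ≤ f (pf j) → ∃ j' : Fin L, θ / D ≤ f (pf j') ∧
      2 * pot pf ((j : ℕ) + 1) + Sg ≤ 2 * pot pf ((j' : ℕ) + 1) + 3 * s)
    (hm : θm ≤ θ0 / D ^ m) (j0 : Fin L) (hj0 : θ0 ≤ f (pf j0)) :
    m * (Sg - 3 * s) ≤ 2 * ∑ j, (pf j).leaves := by
  have key : ∀ t : ℕ, t ≤ m → ∃ j : Fin L, θ0 / D ^ t ≤ f (pf j) ∧
      t * (Sg - 3 * s) ≤ 2 * pot pf ((j : ℕ) + 1) := by
    intro t
    induction t with
    | zero =>
      intro _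
      exact ⟨j0, by simpa using hj0, by simp⟩
    | succ t ih =>
      intro ht
      obtain ⟨j, hj1, hj2⟩ := ih (by omega)
      have h1 : θm ≤ θ0 / D ^ t := by
        refine hm.trans ?_
        refine div_le_div_of_nonneg_left hθ0 (by positivity) ?_
        exact pow_le_pow_right₀ hD (by omega)
      obtain ⟨j', hj3, hj4⟩ := hph j _ h1 hj1
      refine ⟨j', ?_, ?_⟩
      · rw [pow_succ, ← div_div]
        exact hj3
      · rw [Nat.succ_mul]
        omega
  obtain ⟨j, -, hj⟩ := key m le_rfl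
  exact hj.trans (Nat.mul_le_mul_left 2 (pot_le pf _))

end Pool.H63.ZS
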