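import Mathlib

set_option autoImplicit false

/-!
# Numerics
-/

namespace Pool.H63.ZS

open Filter in
private theorem nz0 (d : ℝ) (hd : 0 < d) : ∃ K0 : ℕ, ∀ K : ℕ, K0 ≤ K →
    1 ≤ (K : ℝ) ∧ 1000 ≤ (K : ℝ) ^ d ∧ (Nat.log 2 K : ℝ) + 10 ≤ (K : ℝ) ^ d := by
  have hr : ∀ a : ℝ, 0 < a → ∀ b : ℝ, ∀ᶠ K : ℕ in atTop, b ≤ (K : ℝ) ^ a := fun a ha b =>
    ((tendsto_rpow_atTop ha).comp tendsto_natCast_atTop_atTop).eventually_ge_atTop b
  have hlog : ∀ᶠ K : ℕ in atTop, Real.log K ≤ (K : ℝ) ^ (d / 2) := by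
    have h1 := (isLittleO_log_rpow_atTop (by positivity : 0 < d / 2)).comp_tendsto
      tendsto_natCast_atTop_atTop
    have h2 := h1.bound (c := 1) one_pos
    filter_upwards [h2] with K hK
    simp only [Function.comp_apply, Real.norm_eq_abs, one_mul] at hK
    have h3 : |(K : ℝ) ^ (d / 2)| = (K : ℝ) ^ (d / 2) := abs_of_nonneg (by positivity)
    rw [h3] at hK
    exact (le_abs_self _).trans hK
  obtain ⟨K0, hK0⟩ := eventually_atTop.mp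
    ((hr 1 one_pos 1).and ((hr (d / 2) (by positivity) 40).and hlog))
  refine ⟨K0, fun K hK => ?_⟩
  obtain ⟨h1, h2, h5⟩ := hK0 K hK
  rw [Real.rpow_one] at h1
  have hKpos : (0 : ℝ) < K := by linarith
  have e1 : (K : ℝ) ^ d = (K : ℝ) ^ (d / 2) * (K : ℝ) ^ (d / 2) := by
    rw [← Real.rpow_add hKpos]
    congr 1
    ring
  refine ⟨h1, ?_, ?_⟩
  · rw [e1]
    nlinarith
  · have h6 : (Nat.log 2 K : ℝ) ≤ Real.logb 2 K := Real.natLog_le_logb K 2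
    have h7 : Real.logb 2 K = Real.log K / Real.log 2 := rfl
    have h8 : 0.69 < Real.log 2 := by
      have := Real.log_two_gt_d9
      linarith
    have h9 : Real.log K / Real.log 2 ≤ 2 * (K : ℝ) ^ (d / 2) := by
      rw [div_le_iff₀ (by linarith)]
      nlinarith
    rw [e1]
    nlinarith

private theorem pw_le (ℓ : ℕ) : (100 : ℝ) ^ ℓ ≤ 2 ^ (7 * ℓ) := by
  rw [pow_mul]
  exact pow_le_pow_left₀ (by norm_num) (by norm_num) ℓ

theorem numz (e : ℝ) (he : 0 < e) : ∃ δ : ℝ, 0 < δ ∧ ∃ K0 : ℕ, ∀ K : ℕ, K0 ≤ K →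
    1 ≤ (K : ℝ) ∧ ∀ s Z ℓ : ℕ, K ≤ s → (s : ℝ) ≤ (K : ℝ) ^ (2 - e / 2) →
    (Z : ℝ) * s < 4 * (K : ℝ) ^ (4 - e) → (ℓ : ℝ) ≤ 4 * (K : ℝ) ^ δ →
    ∃ X lam Sg m : ℕ, 1 ≤ X ∧ X ≤ s ∧ (s : ℝ) ≤ (K : ℝ) ^ 2 ∧ 1 ≤ lam ∧ lam ≤ Sg ∧
      (Sg : ℝ) ≤ (K : ℝ) ^ 2 ∧ 3 * s ≤ Sg ∧
      (∀ W1 W2 : ℕ, (W1 : ℝ) ≤ (K : ℝ) ^ (e / 16) * Real.sqrt (s * X) →
        (W2 : ℝ) ≤ (K : ℝ) ^ (e / 16) * Real.sqrt (Sg * lam) → (3 * ℓ + 8) * (W1 + W2 + 1) ≤ K) ∧
      8000 * (((Z : ℝ) + 1) * ((Sg : ℝ) + 1) ^ 2 * (100 ^ ℓ * (1 / 2) ^ lam)) ≤ 1 ∧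
      (1 / 2 : ℝ) ^ X ≤ (1 / 2) ^ lam ∧
      (1 / 2 : ℝ) ^ X ≤ (1 / 2) ^ lam * (1 / 4 / (32 * ((Sg : ℝ) + 1)) ^ m) ∧
      2 * Z < m * (Sg - 3 * s) := by
  obtain ⟨K0, hK0⟩ := nz0 (e / 64) (by positivity)
  refine ⟨e / 64, by positivity, K0, fun K hK => ?_⟩
  obtain ⟨hK1, hx1, hlog⟩ := hK0 K hK
  refine ⟨hK1, ?_⟩
  intro s Z ℓ hKs hs hZ hℓ
  have hKpos : (0 : ℝ) < K := by linarith
  obtain ⟨x, hx⟩ : ∃ x, x = (K : ℝ) ^ (e / 64) := ⟨_, rfl⟩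
  rw [← hx] at hx1 hlog hℓ
  have hx0 : 0 < x := by linarith
  have hpw : ∀ n : ℕ, x ^ n = (K : ℝ) ^ ((n : ℝ) * (e / 64)) := by
    intro n
    rw [hx, ← Real.rpow_natCast, ← Real.rpow_mul hKpos.le]
    congr 1
    ring
  obtain ⟨q, hq⟩ : ∃ q, q = (K : ℝ) ^ (2 - e / 4) := ⟨_, rfl⟩
  have hq0 : 0 < q := by rw [hq]; exact Real.rpow_pos_of_pos hKpos _
  have e1 : q * x ^ 16 = (K : ℝ) ^ 2 := by
    rw [hq, hpw, ← Real.rpow_add hKpos, ← Real.rpow_natCast]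
    congr 1
    push_cast
    ring
  have e2 : (s : ℝ) * x ^ 32 ≤ (K : ℝ) ^ 2 := by
    have h1 : (K : ℝ) ^ (2 - e / 2) * x ^ 32 = (K : ℝ) ^ 2 := by
      rw [hpw, ← Real.rpow_add hKpos, ← Real.rpow_natCast]
      congr 1
      push_cast
      ring
    rw [← h1]
    exact mul_le_mul_of_nonneg_right hs (by positivity)
  have e3 : (Z : ℝ) * s * x ^ 64 < 4 * (K : ℝ) ^ 4 := by
    have h1 : (K : ℝ) ^ (4 - e) * x ^ 64 = (K : ℝ) ^ 4 := by
      rw [hpw, ← Real.rpow_add hKpos, ← Real.rpow_natCast]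
      congr 1
      push_cast
      ring
    have h2 : (Z : ℝ) * s * x ^ 64 < 4 * (K : ℝ) ^ (4 - e) * x ^ 64 :=
      mul_lt_mul_of_pos_right hZ (by positivity)
    rw [mul_assoc 4, h1] at h2
    exact h2
  have e5 : (K : ℝ) ^ (e / 16) = x ^ 4 := by
    rw [hpw]
    congr 1
    push_cast
    ring
  obtain ⟨w, hw⟩ : ∃ w, w = Real.sqrt q := ⟨_, rfl⟩
  have hw0 : 0 < w := by rw [hw]; exact Real.sqrt_pos.mpr hq0
  have hww : w * w = q := by rw [hw]; exact Real.mul_self_sqrt hq0.le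
  have e4 : w * x ^ 8 = K := by
    have h1 : (w * x ^ 8) ^ 2 = (K : ℝ) ^ 2 := by
      rw [← e1, ← hww]
      ring
    exact (pow_left_inj₀ (by positivity) hKpos.le two_ne_zero).1 h1
  rw [e5]
  have hs1 : (1 : ℝ) ≤ s := by
    have : (K : ℝ) ≤ s := by exact_mod_cast hKs
    linarith
  have hs0 : (0 : ℝ) < s := by linarith
  have hKs' : (K : ℝ) ≤ s := by exact_mod_cast hKs
  have hZ0 : (0 : ℝ) ≤ Z := Nat.cast_nonneg _
  have px : ∀ n : ℕ, 1 ≤ x ^ n := fun n => one_le_pow₀ (by linarith)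
  -- `q`
  have hqK : q ≤ (K : ℝ) ^ 2 := by
    rw [← e1]
    exact le_mul_of_one_le_right hq0.le (px 16)
  have hsq : (s : ℝ) * x ^ 16 ≤ q := by
    have h1 : (s : ℝ) * x ^ 16 * x ^ 16 ≤ q * x ^ 16 := by
      rw [e1]
      calc (s : ℝ) * x ^ 16 * x ^ 16 = s * x ^ 32 := by ring
        _ ≤ _ := e2
    exact le_of_mul_le_mul_right h1 (by positivity)
  have x16 : 1000 * x ≤ x ^ 16 := by
    have h1 : x ^ 16 = x ^ 14 * x * x := by ring
    have h2 := px 14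
    rw [h1]
    have h3 : 1 * 1000 ≤ x ^ 14 * x := mul_le_mul h2 hx1 (by norm_num) (by positivity)
    have h4 : 1 * 1000 * x ≤ x ^ 14 * x * x := mul_le_mul_of_nonneg_right h3 hx0.le
    linarith
  have hx16 : (1000000 : ℝ) ≤ x ^ 16 := by linarith
  have hqs : 1000000 * (s : ℝ) ≤ q := by
    have h1 : (s : ℝ) * 1000000 ≤ s * x ^ 16 := mul_le_mul_of_nonneg_left hx16 hs0.le
    linarith
  -- `r`
  obtain ⟨r, hr⟩ : ∃ r, r = q / s := ⟨_, rfl⟩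
  have hrs : r * s = q := by rw [hr]; field_simp
  have hrx : x ^ 16 ≤ r := by
    rw [hr, le_div_iff₀ hs0]
    linarith
  have hr0 : 0 < r := by linarith
  have hrs2 : r ≤ s := by
    rw [hr, div_le_iff₀ hs0]
    have h1 : (K : ℝ) * K ≤ s * s := mul_le_mul hKs' hKs' hKpos.le hs0.le
    have h2 : (K : ℝ) ^ 2 = K * K := by ring
    linarith
  have hZr : (Z : ℝ) * x ^ 32 ≤ 4 * (q * r) := by
    have h1 : (Z : ℝ) * x ^ 32 * (s * x ^ 32) ≤ 4 * (q * r) * (s * x ^ 32) := by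
      have h2 : 4 * (q * r) * (s * x ^ 32) = 4 * (K : ℝ) ^ 4 := by
        calc 4 * (q * r) * (s * x ^ 32) = 4 * q * (r * s) * x ^ 32 := by ring
          _ = 4 * ((q * x ^ 16) ^ 2) := by rw [hrs]; ring
          _ = _ := by rw [e1]; ring
      rw [h2]
      have h3 : (Z : ℝ) * x ^ 32 * (s * x ^ 32) = Z * s * x ^ 64 := by ring
      rw [h3]
      exact e3.le
    exact le_of_mul_le_mul_right h1 (by positivity)
  -- the choices
  obtain ⟨X, hX⟩ : ∃ X, X = ⌊r⌋₊ := ⟨_, rfl⟩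
  obtain ⟨Sg, hSg⟩ : ∃ Sg, Sg = ⌊q⌋₊ := ⟨_, rfl⟩
  obtain ⟨lam, hlam⟩ : ∃ lam, lam = 7 * ℓ + 8 * (Nat.log 2 K + 1) + 18 := ⟨_, rfl⟩
  obtain ⟨m, hm⟩ : ∃ m, m = ⌊4 * (Z : ℝ) / q⌋₊ + 1 := ⟨_, rfl⟩
  have hX1 : (X : ℝ) ≤ r := by rw [hX]; exact Nat.floor_le hr0.le
  have hX2 : r < X + 1 := by rw [hX]; exact Nat.lt_floor_add_one r
  have hSg1 : (Sg : ℝ) ≤ q := by rw [hSg]; exact Nat.floor_le hq0.le
  have hSg2 : q < Sg + 1 := by rw [hSg]; exact Nat.lt_floor_add_one q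
  have hlamr : (lam : ℝ) ≤ 36 * x := by
    rw [hlam]
    push_cast
    linarith
  have hSg3 : 3 * s ≤ Sg := by
    have h1 : (3 : ℝ) * s ≤ Sg := by linarith
    exact_mod_cast h1
  have hKl : (K : ℝ) ≤ 2 ^ (Nat.log 2 K + 1) := by
    have := Nat.lt_pow_succ_log_self (by norm_num : 1 < 2) K
    exact_mod_cast this.le
  have hK2 : (1 : ℝ) ≤ (K : ℝ) ^ 2 := one_le_pow₀ hK1
  have hK4 : (1 : ℝ) ≤ (K : ℝ) ^ 4 := one_le_pow₀ hK1
  have hZK : (Z : ℝ) ≤ 4 * (K : ℝ) ^ 4 := by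
    have h1 : (Z : ℝ) * 1 ≤ Z * (s * x ^ 64) := by
      refine mul_le_mul_of_nonneg_left ?_ hZ0
      have h2 : 1 * 1 ≤ (s : ℝ) * x ^ 64 := mul_le_mul hs1 (px 64) (by norm_num) (by linarith)
      linarith
    have h3 : (Z : ℝ) * (s * x ^ 64) = Z * s * x ^ 64 := by ring
    linarith
  have hinv : ∀ n : ℕ, (2 : ℝ) ^ n * (1 / 2) ^ n = 1 := by
    intro n
    rw [← mul_pow]
    norm_num
  have hmr : (m : ℝ) ≤ 4 * (Z : ℝ) / q + 1 := by
    rw [hm]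
    push_cast
    have := Nat.floor_le (show 0 ≤ 4 * (Z : ℝ) / q by positivity)
    linarith
  have hmr2 : 4 * (Z : ℝ) / q < m := by
    rw [hm]
    push_cast
    exact Nat.lt_floor_add_one _
  have hmx : (m : ℝ) * x ^ 32 ≤ 16 * r + x ^ 32 := by
    have h1 : 4 * (Z : ℝ) / q * x ^ 32 ≤ 16 * r := by
      rw [div_mul_eq_mul_div, div_le_iff₀ hq0]
      linarith
    have h2 : (m : ℝ) * x ^ 32 ≤ (4 * (Z : ℝ) / q + 1) * x ^ 32 :=
      mul_le_mul_of_nonneg_right hmr (by positivity)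
    linarith
  -- the main comparison
  have hmain : lam + 2 + m * (2 * Nat.log 2 K + 8) ≤ X := by
    have h1 : (lam : ℝ) + 2 + m * (2 * (Nat.log 2 K : ℝ) + 8) ≤ r - 1 := by
      have h2 : (m : ℝ) * (2 * (Nat.log 2 K : ℝ) + 8) ≤ m * (2 * x) :=
        mul_le_mul_of_nonneg_left (by linarith) (Nat.cast_nonneg _)
      have h3 : (m : ℝ) * x ≤ 16 * r / 1000 + x := by
        have h4 : (m : ℝ) * x * x ^ 31 ≤ (16 * r / 1000 + x) * x ^ 31 := by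
          have h5 : (m : ℝ) * x * x ^ 31 = m * x ^ 32 := by ring
          have h6 : (16 * r / 1000 + x) * x ^ 31 = 16 * r / 1000 * x ^ 31 + x ^ 32 := by ring
          have h7 : (1000 : ℝ) ≤ x ^ 31 := by
            have h8 : x ^ 31 = x ^ 30 * x := by ring
            have h9 : 1 * 1000 ≤ x ^ 30 * x := mul_le_mul (px 30) hx1 (by norm_num) (by positivity)
            rw [h8]
            linarith
          have h8 : 16 * r / 1000 * 1000 ≤ 16 * r / 1000 * x ^ 31 :=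
            mul_le_mul_of_nonneg_left h7 (by positivity)
          rw [h5, h6]
          linarith
        exact le_of_mul_le_mul_right h4 (by positivity)
      have h4 : 1000 * x ≤ r := by linarith
      linarith
    have h2 : (lam : ℝ) + 2 + m * (2 * (Nat.log 2 K : ℝ) + 8) < X + 1 := by linarith
    have h3 : lam + 2 + m * (2 * Nat.log 2 K + 8) < X + 1 := by exact_mod_cast h2
    omega
  refine ⟨X, lam, Sg, m, ?_, ?_, ?_, by omega, ?_, hSg1.trans hqK, hSg3, ?_, ?_, ?_, ?_, ?_⟩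
  · omega
  · have h1 : (X : ℝ) ≤ s := hX1.trans hrs2
    exact_mod_cast h1
  · linarith
  · have h1 : (lam : ℝ) ≤ Sg := by
      have h2 : 1000 * x ≤ q := by
        have h3 : 1 * x ^ 16 ≤ (s : ℝ) * x ^ 16 := mul_le_mul_of_nonneg_right hs1 (by positivity)
        linarith
      linarith
    exact_mod_cast h1
  · intro W1 W2 hW1 hW2
    have h1 : Real.sqrt (s * X) ≤ w := by
      rw [hw]
      apply Real.sqrt_le_sqrt
      calc (s : ℝ) * X ≤ s * r := mul_le_mul_of_nonneg_left hX1 hs0.le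
        _ = q := by rw [mul_comm]; exact hrs
    have h2 : Real.sqrt (Sg * lam) ≤ 6 * x * w := by
      rw [Real.sqrt_le_left (by positivity)]
      have h3 : (Sg : ℝ) * lam ≤ q * (36 * x) :=
        mul_le_mul hSg1 hlamr (Nat.cast_nonneg _) hq0.le
      have h4 : (6 * x * w) ^ 2 = 36 * x * x * q := by
        rw [← hww]
        ring
      have h5 : q * (36 * x) * 1 ≤ q * (36 * x) * x :=
        mul_le_mul_of_nonneg_left (by linarith) (by positivity)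
      rw [h4]
      linarith
    have h3 : x ^ 4 * Real.sqrt (s * X) ≤ x ^ 4 * w := mul_le_mul_of_nonneg_left h1 (by positivity)
    have h4 : x ^ 4 * Real.sqrt (Sg * lam) ≤ x ^ 4 * (6 * x * w) :=
      mul_le_mul_of_nonneg_left h2 (by positivity)
    have hw1 : 1 ≤ w := by
      rw [hw]
      exact Real.one_le_sqrt.mpr (by linarith)
    have h5 : (W1 : ℝ) + W2 + 1 ≤ 8 * x ^ 5 * w := by
      have h6 : x ^ 4 * w ≤ x ^ 5 * w := by
        refine mul_le_mul_of_nonneg_right ?_ hw0.le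
        exact pow_le_pow_right₀ (by linarith) (by norm_num)
      have h7 : x ^ 4 * (6 * x * w) = 6 * (x ^ 5 * w) := by ring
      have h8 : 1 * 1 ≤ x ^ 5 * w := mul_le_mul (px 5) hw1 (by norm_num) (by positivity)
      linarith
    have h6 : (((3 * ℓ + 8) * (W1 + W2 + 1) : ℕ) : ℝ) ≤ K := by
      push_cast
      have h7 : 3 * (ℓ : ℝ) + 8 ≤ 20 * x := by linarith
      have h8 : (3 * (ℓ : ℝ) + 8) * ((W1 : ℝ) + W2 + 1) ≤ 20 * x * (8 * x ^ 5 * w) :=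
        mul_le_mul h7 h5 (by positivity) (by positivity)
      have h9 : 20 * x * (8 * x ^ 5 * w) = 160 * (w * x ^ 6) := by ring
      have h10 : 160 * (w * x ^ 6) ≤ w * x ^ 8 := by
        have h11 : w * x ^ 8 = x * x * (w * x ^ 6) := by ring
        rw [h11]
        refine mul_le_mul_of_nonneg_right ?_ (by positivity)
        have h12 : 1000 * 1000 ≤ x * x := mul_le_mul hx1 hx1 (by norm_num) hx0.le
        linarith
      rw [e4] at h10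
      linarith
    exact_mod_cast h6
  · -- the coarse error
    have h1 : (Z : ℝ) + 1 ≤ 5 * (K : ℝ) ^ 4 := by linarith
    have h2 : ((Sg : ℝ) + 1) ^ 2 ≤ 4 * (K : ℝ) ^ 4 := by
      have h3 : (Sg : ℝ) + 1 ≤ 2 * (K : ℝ) ^ 2 := by linarith
      calc ((Sg : ℝ) + 1) ^ 2 ≤ (2 * (K : ℝ) ^ 2) ^ 2 := pow_le_pow_left₀ (by positivity) h3 2
        _ = _ := by ring
    have h3 : ((Z : ℝ) + 1) * ((Sg : ℝ) + 1) ^ 2 ≤ 5 * (K : ℝ) ^ 4 * (4 * (K : ℝ) ^ 4) :=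
      mul_le_mul h1 h2 (by positivity) (by positivity)
    have h4 : (K : ℝ) ^ 8 ≤ 2 ^ (8 * (Nat.log 2 K + 1)) := by
      rw [mul_comm, pow_mul]
      exact pow_le_pow_left₀ hKpos.le hKl 8
    have h5 := pw_le ℓ
    have h6 : 8000 * (((Z : ℝ) + 1) * ((Sg : ℝ) + 1) ^ 2) ≤
        2 ^ 18 * 2 ^ (8 * (Nat.log 2 K + 1)) := by
      have h7 : 8000 * (5 * (K : ℝ) ^ 4 * (4 * (K : ℝ) ^ 4)) = 160000 * (K : ℝ) ^ 8 := by ring
      have h8 : (0 : ℝ) ≤ (K : ℝ) ^ 8 := by positivity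
      have h9 : (2 : ℝ) ^ 18 = 262144 := by norm_num
      rw [h9]
      have h10 : 8000 * (((Z : ℝ) + 1) * ((Sg : ℝ) + 1) ^ 2) ≤
          8000 * (5 * (K : ℝ) ^ 4 * (4 * (K : ℝ) ^ 4)) := mul_le_mul_of_nonneg_left h3 (by norm_num)
      linarith
    calc 8000 * (((Z : ℝ) + 1) * ((Sg : ℝ) + 1) ^ 2 * (100 ^ ℓ * (1 / 2) ^ lam))
        = 8000 * (((Z : ℝ) + 1) * ((Sg : ℝ) + 1) ^ 2) * 100 ^ ℓ * (1 / 2) ^ lam := by ring
      _ ≤ 2 ^ 18 * 2 ^ (8 * (Nat.log 2 K + 1)) * 2 ^ (7 * ℓ) * (1 / 2) ^ lam := by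
          refine mul_le_mul_of_nonneg_right ?_ (by positivity)
          exact mul_le_mul h6 h5 (by positivity) (by positivity)
      _ = 2 ^ lam * (1 / 2) ^ lam := by
          rw [← pow_add, ← pow_add, hlam]
          congr 2
          omega
      _ = 1 := hinv _
      _ ≤ 1 := le_rfl
  · exact pow_le_pow_of_le_one (by norm_num) (by norm_num) (by omega)
  · -- the fine error
    have h1 : 32 * ((Sg : ℝ) + 1) ≤ 2 ^ (2 * Nat.log 2 K + 8) := by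
      have h2 : 32 * ((Sg : ℝ) + 1) ≤ 64 * (K : ℝ) ^ 2 := by linarith
      have h3 : (K : ℝ) ^ 2 ≤ (2 ^ (Nat.log 2 K + 1)) ^ 2 := pow_le_pow_left₀ hKpos.le hKl 2
      have h4 : (2 : ℝ) ^ (2 * Nat.log 2 K + 8) = 64 * (2 ^ (Nat.log 2 K + 1)) ^ 2 := by
        generalize Nat.log 2 K = t
        have h5 : (2 : ℝ) ^ (2 * t + 8) = (2 ^ t) ^ 2 * 256 := by
          rw [pow_add, mul_comm 2 t, pow_mul]
          norm_num
        rw [h5, pow_succ]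
        ring
      rw [h4]
      linarith
    have h2 : (32 * ((Sg : ℝ) + 1)) ^ m ≤ 2 ^ (m * (2 * Nat.log 2 K + 8)) := by
      rw [mul_comm m, pow_mul]
      exact pow_le_pow_left₀ (by positivity) h1 m
    have h3 : (1 / 2 : ℝ) ^ (m * (2 * Nat.log 2 K + 8)) ≤ 1 / (32 * ((Sg : ℝ) + 1)) ^ m := by
      rw [le_div_iff₀ (by positivity)]
      calc (1 / 2 : ℝ) ^ (m * (2 * Nat.log 2 K + 8)) * (32 * ((Sg : ℝ) + 1)) ^ m
          ≤ (1 / 2 : ℝ) ^ (m * (2 * Nat.log 2 K + 8)) * 2 ^ (m * (2 * Nat.log 2 K + 8)) :=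
            mul_le_mul_of_nonneg_left h2 (by positivity)
        _ = 1 := by rw [mul_comm]; exact hinv _
    calc (1 / 2 : ℝ) ^ X ≤ (1 / 2) ^ (lam + 2 + m * (2 * Nat.log 2 K + 8)) :=
          pow_le_pow_of_le_one (by norm_num) (by norm_num) hmain
      _ = (1 / 2) ^ lam * (1 / 4 * (1 / 2 : ℝ) ^ (m * (2 * Nat.log 2 K + 8))) := by
          rw [pow_add, pow_add]
          norm_num
          ring
      _ ≤ (1 / 2) ^ lam * (1 / 4 * (1 / (32 * ((Sg : ℝ) + 1)) ^ m)) := by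
          refine mul_le_mul_of_nonneg_left ?_ (by positivity)
          exact mul_le_mul_of_nonneg_left h3 (by norm_num)
      _ = _ := by ring
  · -- many phases
    have h1 : (2 : ℝ) * Z < m * ((Sg : ℝ) - 3 * s) := by
      have h2 : q / 2 ≤ (Sg : ℝ) - 3 * s := by linarith
      have h3 : 4 * (Z : ℝ) < m * q := (div_lt_iff₀ hq0).1 hmr2
      have h4 : (m : ℝ) * (q / 2) ≤ m * ((Sg : ℝ) - 3 * s) :=
        mul_le_mul_of_nonneg_left h2 (Nat.cast_nonneg _)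
      linarith
    have h2 : ((2 * Z : ℕ) : ℝ) < ((m * (Sg - 3 * s) : ℕ) : ℝ) := by
      rw [Nat.cast_mul m, Nat.cast_sub hSg3]
      push_cast
      exact h1
    exact_mod_cast h2

end Pool.H63.ZS
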