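import Mathlib
import Pool.Agent.H63.ZS.Nf
import Pool.Agent.H81.QG.Chain

set_option autoImplicit false

/-!
# Two valuations of the same world are nearly equal
-/

namespace Pool.H63.ZS

open Finset Classical Pool.Agent.H3.Frg Pool.Agent.H3.Frg2 Pool.Agent.H81.QG

variable {R H ι : Type} [CommRing R] [Algebra ℝ R] [NormedAddCommGroup H] [InnerProductSpace ℝ H]
variable {cl : R →ₗ[ℝ] H} {dg : ℕ → Submodule ℝ R} {K : ℕ}

theorem len_pos (F : Fm ι) : 1 ≤ F.len := by
  cases F with
  | var _ => exact le_rfl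
  | neg A => exact Nat.le_add_left 1 _
  | imp A B => exact Nat.le_add_left 1 _

theorem two_len (hL : Liar cl dg K) {V U : Fm ι → R} {y : ι → R} {W s k : ℕ} {η : ℝ}
    (hV : VI cl dg V y W s k η) (hU : VI cl dg U y W s k η) (hη : 0 ≤ η) (hK : k + 2 * W ≤ K)
    {k' : ℕ} (hk : k' + W ≤ k) (A : Fm ι) (hA : A.leaves ≤ s) :
    Sml cl dg k' (2 * η * A.len * (1 + η) ^ A.len) (U A - V A) := by
  have hW0 : ∀ j, (1 : R) ∈ dg j := fun j => hL.mono (Nat.zero_le j) hL.one
  induction A with
  | var i =>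
    have h1 := (hU.var i).sub (hV.var i)
    have e : U (.var i) - V (.var i) = U (.var i) - y i - (V (.var i) - y i) := by ring
    rw [e]
    refine h1.mono hL (by omega) ?_
    have hl : (Fm.var i).len = 1 := rfl
    rw [hl]
    push_cast
    nlinarith
  | neg A ih =>
    have hA' : A.leaves ≤ s := hA
    have h1 := (hU.neg A hA').sub (hV.neg A hA')
    have h2 := ih hA'
    have e : U (.neg A) - V (.neg A) =
        (U (.neg A) - (1 - U A) - (V (.neg A) - (1 - V A))) - (U A - V A) := by ring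
    rw [e]
    refine ((h1.mono hL (show k' ≤ k by omega) le_rfl).sub h2).mono hL le_rfl ?_
    have hl : (Fm.neg A).len = A.len + 1 := rfl
    rw [hl, pow_succ]
    push_cast
    have hp : (1 : ℝ) ≤ (1 + η) ^ A.len := one_le_pow₀ (by linarith)
    have hn : (0 : ℝ) ≤ A.len := Nat.cast_nonneg _
    have h3 : 1 * 1 ≤ (1 + η) ^ A.len * (1 + η) :=
      mul_le_mul hp (by linarith) (by norm_num) (by linarith)
    have h4 : (1 + η) ^ A.len ≤ (1 + η) ^ A.len * (1 + η) :=
      le_mul_of_one_le_right (by linarith) (by linarith)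
    have h5 : 2 * η * A.len * (1 + η) ^ A.len ≤ 2 * η * A.len * ((1 + η) ^ A.len * (1 + η)) :=
      mul_le_mul_of_nonneg_left h4 (by positivity)
    have h6 : 2 * η * (1 * 1) ≤ 2 * η * ((1 + η) ^ A.len * (1 + η)) :=
      mul_le_mul_of_nonneg_left h3 (by positivity)
    linarith
  | imp A B ihA ihB =>
    have hAB : A.leaves + B.leaves ≤ s := hA
    have hA' : A.leaves ≤ s := by omega
    have hB' : B.leaves ≤ s := by omega
    have h1 := (hU.imp A B hA).sub (hV.imp A B hA)
    have hVB : 1 - V B ∈ dg W := sub_mem (hW0 _) (hV.deg B hB')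
    obtain ⟨b1, b2⟩ := vbd hL (hV.deg B hB') hη (hV.idem B hB') hK
    obtain ⟨a1, a2⟩ := vbd hL (hU.deg A hA') hη (hU.idem A hA') hK
    have dA : U A - V A ∈ dg W := sub_mem (hU.deg A hA') (hV.deg A hA')
    have dB : U B - V B ∈ dg W := sub_mem (hU.deg B hB') (hV.deg B hB')
    have pA : 0 ≤ 2 * η * A.len * (1 + η) ^ A.len := by positivity
    have pB : 0 ≤ 2 * η * B.len * (1 + η) ^ B.len := by positivity
    have h2 := Sml.mula hL (ihA hA') dA (by linarith) b2 (by omega)
    have h3 := Sml.mula hL (ihB hB') dB (by linarith) a1 (by omega)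
    have e : U (.imp A B) - V (.imp A B) =
        (U (.imp A B) - (1 - U A + U A * U B) - (V (.imp A B) - (1 - V A + V A * V B))) -
          (1 - V B) * (U A - V A) + U A * (U B - V B) := by ring
    rw [e]
    refine (((h1.mono hL (show k' ≤ k by omega) le_rfl).sub h2).add h3).mono hL le_rfl ?_
    have hl : (Fm.imp A B).len = A.len + B.len + 1 := rfl
    rw [hl]
    push_cast
    have hp : (1 : ℝ) ≤ (1 + η) ^ (A.len + B.len + 1) := one_le_pow₀ (by linarith)
    have h4 : (1 + η) * (2 * η * A.len * (1 + η) ^ A.len) ≤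
        2 * η * A.len * (1 + η) ^ (A.len + B.len + 1) := by
      have h5 : (1 + η) ^ (A.len + 1) ≤ (1 + η) ^ (A.len + B.len + 1) :=
        pow_le_pow_right₀ (by linarith) (by omega)
      calc (1 + η) * (2 * η * A.len * (1 + η) ^ A.len) = 2 * η * A.len * (1 + η) ^ (A.len + 1) := by
            rw [pow_succ]; ring
        _ ≤ _ := mul_le_mul_of_nonneg_left h5 (by positivity)
    have h4' : (1 + η) * (2 * η * B.len * (1 + η) ^ B.len) ≤
        2 * η * B.len * (1 + η) ^ (A.len + B.len + 1) := by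
      have h5 : (1 + η) ^ (B.len + 1) ≤ (1 + η) ^ (A.len + B.len + 1) :=
        pow_le_pow_right₀ (by linarith) (by omega)
      calc (1 + η) * (2 * η * B.len * (1 + η) ^ B.len) = 2 * η * B.len * (1 + η) ^ (B.len + 1) := by
            rw [pow_succ]; ring
        _ ≤ _ := mul_le_mul_of_nonneg_left h5 (by positivity)
    have h6 : 2 * η * 1 ≤ 2 * η * (1 + η) ^ (A.len + B.len + 1) :=
      mul_le_mul_of_nonneg_left hp (by positivity)
    nlinarith

/-- The two precisions, for normal forms: the error is proportional to the size. -/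
theorem two (hL : Liar cl dg K) {V U : Fm ι → R} {y : ι → R} {W s k : ℕ} {η : ℝ}
    (hV : VI cl dg V y W s k η) (hU : VI cl dg U y W s k η) (hη : 0 ≤ η) (hK : k + 2 * W ≤ K)
    {k' : ℕ} (hk : k' + W ≤ k) (A : Fm ι) (hA : A.leaves ≤ s) :
    Sml cl dg k' (2 * η * (4 * s : ℕ) * (1 + η) ^ (4 * s)) (U (nf A) - V (nf A)) := by
  refine (two_len hL hV hU hη hK hk (nf A) (by rw [nf_leaves]; exact hA)).mono hL le_rfl ?_
  have h1 : (nf A).len ≤ 4 * s := (nf_len A).trans (by omega)
  have h2 : ((nf A).len : ℝ) ≤ (4 * s : ℕ) := by exact_mod_cast h1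
  have h3 : (1 + η) ^ (nf A).len ≤ (1 + η) ^ (4 * s) := pow_le_pow_right₀ (by linarith) h1
  refine mul_le_mul (mul_le_mul_of_nonneg_left h2 (by linarith)) h3 (by positivity) (by positivity)

end Pool.H63.ZS
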