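import Mathlib
import Pool.Agent.H63.ZS.Two
import Pool.Agent.H63.ZS.Cmb

set_option autoImplicit false

/-!
# The phases

`V`: the fine valuation, `U`: the coarse valuation of larger formulas. A phase leads from a formula `F` of
the derivation to an earlier formula `B`, whose value is not much worse.
-/

namespace Pool.H63.ZS

open Finset Classical Pool.Agent.H3.Frg Pool.Agent.H3.Frg2 Pool.Agent.H3.Frg4 Pool.Agent.H81.QG

variable {R H ι : Type} [CommRing R] [Algebra ℝ R] [NormedAddCommGroup H] [InnerProductSpace ℝ H]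
variable {cl : R →ₗ[ℝ] H} {dg : ℕ → Submodule ℝ R} {K : ℕ}

theorem vi_le (hL : Liar cl dg K) {V : Fm ι → R} {y : ι → R} {W s k : ℕ} {η : ℝ}
    (h : VI cl dg V y W s k η) {W' s' k' : ℕ} {η' : ℝ} (hW : W ≤ W') (hs : s' ≤ s) (hk : k' ≤ k)
    (hη : η ≤ η') : VI cl dg V y W' s' k' η' :=
  { deg := fun F hF => hL.mono hW (h.deg F (hF.trans hs))
    degy := h.degy
    idy := h.idy
    idem := fun F hF => (h.idem F (hF.trans hs)).mono hL hk hη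
    var := fun i => (h.var i).mono hL hk hη
    neg := fun F hF => (h.neg F (hF.trans hs)).mono hL hk hη
    imp := fun A B hAB => (h.imp A B (hAB.trans hs)).mono hL hk hη }

private theorem pow_two_bd {ζ : ℝ} (hζ : 0 ≤ ζ) {n : ℕ} (h : (n : ℝ) * ζ ≤ 1 / 2) :
    (1 + ζ) ^ n ≤ 2 := by
  have h1 : (1 + ζ) ^ n ≤ Real.exp (n * ζ) := by
    rw [mul_comm, Real.exp_mul, Real.rpow_natCast]
    exact pow_le_pow_left₀ (by linarith) (by rw [add_comm]; exact Real.add_one_le_exp ζ) n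
  have h5 : Real.exp (n * ζ) ≤ Real.exp (1 / 2) := Real.exp_le_exp.mpr h
  have h6 : Real.exp (1 / 2) ≤ 2 := by
    have h7 := Real.exp_one_lt_d9
    have h8 : Real.exp (1 / 2) ^ 2 = Real.exp 1 := by
      rw [← Real.exp_nat_mul]
      norm_num
    have h9 := Real.exp_pos (1 / 2)
    nlinarith
  linarith

/-- One phase. -/
theorem phase (hL : Liar cl dg K) {V U : Fm ι → R} {y : ι → R} {W s Sg k : ℕ} {ηV ζ : ℝ}
    (hW : 1 ≤ W) (hV : VI cl dg V y W s k ηV) (hU : VI cl dg U y W Sg k ζ) (hηV : 0 ≤ ηV)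
    (hηζ : ηV ≤ ζ) (hK : k + 2 * W ≤ K) {ℓ L : ℕ} {Sch : Set (Fm ℕ)} {Γ : Set (Fm ι)}
    (hS : ∀ ψ ∈ Sch, ψ.len ≤ ℓ ∧ ∀ x, ψ.eval x = true)
    (hΓ : ∀ A ∈ Γ, A.len ≤ ℓ ∧ ∀ p ∈ dg k, cl ((1 - ev y A) * p) = 0)
    (hk : (2 * ℓ + 6) * W ≤ k)
    (hζ : 8000 * (((L : ℝ) + 1) * ((Sg : ℝ) + 1) ^ 2 * (100 ^ ℓ * ζ)) ≤ 1)
    {pf : Fin L → Fm ι} (hpf : IsDer Sch Γ pf) (hs : ∀ i, (pf i).leaves ≤ s) (hSg : 3 * s ≤ Sg)
    (j : Fin L) {θ : ℝ} (hθ : 0 < θ) (hθ2 : ηV ≤ ζ * θ) (hj : θ ≤ ‖cl (1 - V (nf (pf j)))‖) :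
    ∃ j' : Fin L, θ / (32 * ((Sg : ℝ) + 1)) ≤ ‖cl (1 - V (nf (pf j')))‖ ∧
      2 * pot pf ((j : ℕ) + 1) + Sg ≤ 2 * pot pf ((j' : ℕ) + 1) + 3 * s := by
  have hζ0 : 0 ≤ ζ := hηV.trans hηζ
  have h100 : (1 : ℝ) ≤ 100 ^ ℓ := one_le_pow₀ (by norm_num)
  have hL0 : (0 : ℝ) ≤ L := Nat.cast_nonneg _
  have hSg0 : (0 : ℝ) ≤ Sg := Nat.cast_nonneg _
  obtain ⟨ζ1, hζ1⟩ : ∃ ζ1 : ℝ, ζ1 = 100 ^ ℓ * ζ := ⟨_, rfl⟩
  have hζζ : ζ ≤ ζ1 := by rw [hζ1]; exact le_mul_of_one_le_left hζ0 h100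
  have hζ10 : 0 ≤ ζ1 := hζ0.trans hζζ
  rw [← hζ1] at hζ
  -- consequences of `hζ`
  have q1 : ((L : ℝ) + 1) * (((Sg : ℝ) + 1) ^ 2 * ζ1) ≤ 1 / 8000 := by linarith
  have q2 : ((Sg : ℝ) + 1) ^ 2 * ζ1 ≤ 1 / 8000 := by
    have h1 : 1 * (((Sg : ℝ) + 1) ^ 2 * ζ1) ≤ ((L : ℝ) + 1) * (((Sg : ℝ) + 1) ^ 2 * ζ1) :=
      mul_le_mul_of_nonneg_right (by linarith) (by positivity)
    linarith
  have q3 : ((Sg : ℝ) + 1) * ζ1 ≤ 1 / 8000 := by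
    have h1 : ((Sg : ℝ) + 1) * ζ1 ≤ ((Sg : ℝ) + 1) ^ 2 * ζ1 := by
      refine mul_le_mul_of_nonneg_right ?_ hζ10
      nlinarith
    linarith
  have q4 : ((L : ℝ) + 1) * ζ1 ≤ 1 / 8000 := by
    have h1 : ((L : ℝ) + 1) * ζ1 ≤ ((L : ℝ) + 1) * (((Sg : ℝ) + 1) ^ 2 * ζ1) := by
      refine mul_le_mul_of_nonneg_left ?_ (by linarith)
      refine le_mul_of_one_le_left hζ10 ?_
      nlinarith
    linarith
  have q5 : ζ ≤ 1 / 8000 := by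
    have h1 : 1 * ζ1 ≤ ((L : ℝ) + 1) * ζ1 := mul_le_mul_of_nonneg_right (by linarith) hζ10
    linarith
  have hz1 : ζ ≤ 1 := by linarith
  have hsSg : (3 : ℝ) * s ≤ Sg := by exact_mod_cast hSg
  have hs0 : (0 : ℝ) ≤ s := Nat.cast_nonneg _
  have powL : (1 + ζ) ^ L ≤ 2 := by
    apply pow_two_bd hζ0
    have h1 : (L : ℝ) * ζ ≤ (L + 1) * ζ1 := mul_le_mul (by linarith) hζζ hζ0 (by linarith)
    linarith
  have powS : (1 + ζ) ^ Sg ≤ 2 := by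
    apply pow_two_bd hζ0
    have h1 : (Sg : ℝ) * ζ ≤ (Sg + 1) * ζ1 := mul_le_mul (by linarith) hζζ hζ0 (by linarith)
    linarith
  have pow4 : (1 + ζ) ^ (4 * s) ≤ 2 := by
    apply pow_two_bd hζ0
    push_cast
    have h1 : 4 * (s : ℝ) * ζ ≤ (4 * (Sg + 1)) * ζ1 := mul_le_mul (by linarith) hζζ hζ0 (by linarith)
    linarith
  -- normal forms
  obtain ⟨V', hV'⟩ : ∃ V' : Fm ι → R, V' = fun A => V (nf A) := ⟨_, rfl⟩
  obtain ⟨U', hU'⟩ : ∃ U' : Fm ι → R, U' = fun A => U (nf A) := ⟨_, rfl⟩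
  have iV : VI cl dg V' y W s k ηV := by rw [hV']; exact vi_nf hV
  have iU : VI cl dg U' y W Sg k ζ := by rw [hU']; exact vi_nf hU
  have eV : ∀ A, V (nf A) = V' A := fun A => by rw [hV']
  have hWk : W + W ≤ k := by
    have : 2 * W ≤ (2 * ℓ + 6) * W := Nat.mul_le_mul_right W (by omega)
    omega
  have hWk3 : W + 3 * W ≤ k := by
    have : 4 * W ≤ (2 * ℓ + 6) * W := Nat.mul_le_mul_right W (by omega)
    omega
  have hWk5 : W + (2 * ℓ + 5) * W ≤ k := by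
    have : (2 * ℓ + 6) * W = W + (2 * ℓ + 5) * W := by ring
    omega
  obtain ⟨τ, hτ⟩ : ∃ τ : ℝ, τ = 16 * s * ζ := ⟨_, rfl⟩
  have hτ0 : 0 ≤ τ := by rw [hτ]; positivity
  have hD : ∀ A : Fm ι, A.leaves ≤ s → Sml cl dg W τ (U' A - V' A) := by
    intro A hA
    have h1 := two hL (vi_le hL hV le_rfl le_rfl le_rfl hηζ) (vi_le hL hU le_rfl
      (show s ≤ Sg by omega) le_rfl le_rfl) hζ0 hK hWk A hA
    rw [hU', hV']
    refine h1.mono hL le_rfl ?_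
    rw [hτ]
    push_cast
    have h2 : 2 * ζ * (4 * (s : ℝ)) * (1 + ζ) ^ (4 * s) ≤ 2 * ζ * (4 * (s : ℝ)) * 2 :=
      mul_le_mul_of_nonneg_left pow4 (by positivity)
    linarith
  -- the vector `p`
  obtain ⟨F, hF⟩ : ∃ F, F = pf j := ⟨_, rfl⟩
  have hFs : F.leaves ≤ s := by rw [hF]; exact hs j
  have h1W : ∀ i, (1 : R) ∈ dg i := fun i => hL.mono (Nat.zero_le i) hL.one
  obtain ⟨p, hp⟩ : ∃ p, p = 1 - V' F := ⟨_, rfl⟩
  have hpW : p ∈ dg W := by rw [hp]; exact sub_mem (h1W _) (iV.deg F hFs)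
  rw [eV, ← hF, ← hp] at hj
  have hp0 : 0 < ‖cl p‖ := lt_of_lt_of_le hθ hj
  obtain ⟨ε, hε⟩ : ∃ ε : ℝ, ε = 640 * ((Sg : ℝ) + 1) ^ 2 * (100 ^ ℓ * ζ) := ⟨_, rfl⟩
  have hεq : ε = 640 * (((Sg : ℝ) + 1) ^ 2 * ζ1) := by rw [hε, ← hζ1]; ring
  have hε0 : 0 ≤ ε := by rw [hεq]; positivity
  obtain ⟨v, hv⟩ : ∃ v : Finset (Fm ι) → ℝ, v = fun M => ‖cl (VC U' M.toList * p)‖ := ⟨_, rfl⟩
  have hτε : τ ≤ ε / 2 := by
    rw [hτ, hεq]
    have h1 : (s : ℝ) * ζ ≤ ((Sg : ℝ) + 1) * ζ1 := mul_le_mul (by linarith) hζζ hζ0 (by linarith)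
    have h2 : ((Sg : ℝ) + 1) * ζ1 ≤ ((Sg : ℝ) + 1) ^ 2 * ζ1 := by
      refine mul_le_mul_of_nonneg_right ?_ hζ10
      nlinarith
    have h3 : 0 ≤ ((Sg : ℝ) + 1) ^ 2 * ζ1 := by positivity
    nlinarith
  have hζε : ζ ≤ ε / 2 := by
    rw [hεq]
    have h2 : 1 * ζ1 ≤ ((Sg : ℝ) + 1) ^ 2 * ζ1 := by
      refine mul_le_mul_of_nonneg_right ?_ hζ10
      nlinarith
    linarith
  have hstart : v {pf j} ≤ ε * ‖cl p‖ := by
    rw [hv]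
    show ‖cl (VC U' ({pf j} : Finset (Fm ι)).toList * p)‖ ≤ _
    rw [Finset.toList_singleton, ← hF]
    show ‖cl (U' F * p)‖ ≤ _
    have e : U' F * p = (U' F - V' F) * p - (V' F * V' F - V' F) * 1 := by
      rw [hp]
      ring
    rw [e, map_sub]
    have t1 := hD F hFs p hpW
    have t2 : ‖cl ((V' F * V' F - V' F) * 1)‖ ≤ ηV := by
      have h1 := iV.idem F hFs 1 (h1W _)
      rw [hL.nrm] at h1
      linarith
    have t3 := norm_sub_le (cl ((U' F - V' F) * p)) (cl ((V' F * V' F - V' F) * 1))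
    have t4 : ζ * θ ≤ (ε / 2) * ‖cl p‖ := mul_le_mul hζε hj hθ.le (by linarith)
    have t5 : τ * ‖cl p‖ ≤ (ε / 2) * ‖cl p‖ := mul_le_mul_of_nonneg_right hτε hp0.le
    linarith
  have hdes := descent hpf hs v (a := 1 + ζ) (b := ε * ‖cl p‖) (by linarith) (by positivity)
    (Sg := Sg) ?_ j hstart hSg
  swap
  · intro M M' B hM hM' h1 h2
    rw [hv, hε]
    exact cstepv hL hW iU hζ0 hz1 hK hS hΓ hWk5 powS hM hM' h1 h2 hpW
  have hbig : ((L : ℝ) + 1) * (ε * ‖cl p‖) * (1 + ζ) ^ L ≤ ‖cl p‖ / 4 := by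
    have h1 : ((L : ℝ) + 1) * (ε * ‖cl p‖) * (1 + ζ) ^ L ≤ ((L : ℝ) + 1) * (ε * ‖cl p‖) * 2 :=
      mul_le_mul_of_nonneg_left powL (by positivity)
    have h2 : ((L : ℝ) + 1) * ε ≤ 640 / 8000 := by
      rw [hεq]
      linarith
    have h3 : ((L : ℝ) + 1) * ε * ‖cl p‖ ≤ 640 / 8000 * ‖cl p‖ :=
      mul_le_mul_of_nonneg_right h2 hp0.le
    nlinarith
  rcases hdes with h | ⟨i, M, hi, hM1, hM2, hM3, hM4, hM5⟩
  · exfalso
    have h1 : v ∅ = ‖cl p‖ := by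
      rw [hv]
      show ‖cl (VC U' (∅ : Finset (Fm ι)).toList * p)‖ = _
      rw [Finset.toList_empty]
      show ‖cl (1 * p)‖ = _
      rw [one_mul]
    rw [h1] at h
    linarith
  · have hvM : ‖cl (VC U' M.toList * p)‖ ≤ ‖cl p‖ / 4 := by
      have h1 : v M = ‖cl (VC U' M.toList * p)‖ := by rw [hv]
      rw [← h1]
      exact hM4.trans hbig
    have hex : ∃ B ∈ M, ‖cl p‖ / (8 * ((Sg : ℝ) + 1)) < ‖cl ((1 - U' B) * p)‖ := by
      by_contra hcon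
      push Not at hcon
      have hls : ls M.toList ≤ Sg := by rw [ls_toList]; exact hM2
      have h1 := vc_last hL iU hζ0 hz1 hK hWk3 hpW (β := ‖cl p‖ / (8 * ((Sg : ℝ) + 1)))
        (by positivity) M.toList hls (fun B hB => hcon B (Finset.mem_toList.1 hB))
      have hlen : M.toList.length ≤ Sg := (toList_len M).trans hM2
      have hlenr : (M.toList.length : ℝ) ≤ Sg := by exact_mod_cast hlen
      have h2 : (1 + ζ) ^ M.toList.length ≤ 2 :=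
        (pow_le_pow_right₀ (by linarith) hlen).trans powS
      have h3 : ‖cl ((1 - VC U' M.toList) * p)‖ ≤
          (‖cl p‖ / (8 * ((Sg : ℝ) + 1)) + 10 * ζ * ‖cl p‖) * (Sg + 1) * 2 := by
        refine h1.trans ?_
        refine mul_le_mul (mul_le_mul_of_nonneg_left (by linarith) (by positivity)) h2
          (by positivity) (by positivity)
      have h4 : ‖cl p‖ / (8 * ((Sg : ℝ) + 1)) * (Sg + 1) = ‖cl p‖ / 8 := by
        field_simp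
      have h5 : ζ * (Sg + 1) ≤ 1 / 8000 := by
        have h6 : ζ * (Sg + 1) ≤ ζ1 * (Sg + 1) := mul_le_mul_of_nonneg_right hζζ (by linarith)
        linarith
      have h6 : ζ * (Sg + 1) * ‖cl p‖ ≤ 1 / 8000 * ‖cl p‖ :=
        mul_le_mul_of_nonneg_right h5 hp0.le
      have h7 : (‖cl p‖ / (8 * ((Sg : ℝ) + 1)) + 10 * ζ * ‖cl p‖) * (Sg + 1) * 2 ≤ ‖cl p‖ / 2 := by
        calc (‖cl p‖ / (8 * ((Sg : ℝ) + 1)) + 10 * ζ * ‖cl p‖) * (Sg + 1) * 2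
            = (‖cl p‖ / (8 * ((Sg : ℝ) + 1)) * (Sg + 1)) * 2 + 20 * (ζ * (Sg + 1) * ‖cl p‖) := by
              ring
          _ ≤ ‖cl p‖ / 2 := by
              rw [h4]
              linarith
      have e : p = VC U' M.toList * p + (1 - VC U' M.toList) * p := by ring
      have h8 : ‖cl p‖ ≤ ‖cl (VC U' M.toList * p)‖ + ‖cl ((1 - VC U' M.toList) * p)‖ := by
        have h9 := norm_add_le (cl (VC U' M.toList * p)) (cl ((1 - VC U' M.toList) * p))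
        rw [← map_add, ← e] at h9
        exact h9
      linarith
    obtain ⟨B, hBM, hB⟩ := hex
    obtain ⟨j', hj', hjB⟩ := hM1 B hBM
    have hBs : B.leaves ≤ s := by rw [← hjB]; exact hs j'
    refine ⟨j', ?_, ?_⟩
    · rw [eV, hjB]
      have mB : 1 - V' B ∈ dg W := sub_mem (h1W _) (iV.deg B hBs)
      obtain ⟨f1, f2⟩ := vbd hL (iV.deg F hFs) hηV (iV.idem F hFs) hK
      have t1 := f2 (1 - V' B) (hL.mono (by omega) mB)
      have e1 : (1 - V' F) * (1 - V' B) = (1 - U' B) * p + (U' B - V' B) * p := by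
        rw [hp]
        ring
      rw [e1, map_add] at t1
      have t2 := hD B hBs p hpW
      have t3 : ‖cl ((1 - U' B) * p)‖ ≤
          ‖cl ((1 - U' B) * p) + cl ((U' B - V' B) * p)‖ + ‖cl ((U' B - V' B) * p)‖ := by
        have h9 := norm_sub_le (cl ((1 - U' B) * p) + cl ((U' B - V' B) * p))
          (cl ((U' B - V' B) * p))
        rw [add_sub_cancel_right] at h9
        exact h9
      have t4 : τ ≤ 1 / (16 * ((Sg : ℝ) + 1)) := by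
        rw [le_div_iff₀ (by positivity), hτ]
        have h1 : (s : ℝ) * ζ * (Sg + 1) ≤ ((Sg : ℝ) + 1) ^ 2 * ζ1 := by
          have h2 : (s : ℝ) * ζ ≤ ((Sg : ℝ) + 1) * ζ1 :=
            mul_le_mul (by linarith) hζζ hζ0 (by linarith)
          have h3 : (s : ℝ) * ζ * (Sg + 1) ≤ ((Sg : ℝ) + 1) * ζ1 * (Sg + 1) :=
            mul_le_mul_of_nonneg_right h2 (by linarith)
          linarith
        linarith
      have t5 : τ * ‖cl p‖ ≤ 1 / (16 * ((Sg : ℝ) + 1)) * ‖cl p‖ :=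
        mul_le_mul_of_nonneg_right t4 hp0.le
      have t6 : ‖cl p‖ / (8 * ((Sg : ℝ) + 1)) = 2 * (1 / (16 * ((Sg : ℝ) + 1)) * ‖cl p‖) := by
        field_simp
        norm_num
      have t7 : θ / (32 * ((Sg : ℝ) + 1)) ≤ 1 / (16 * ((Sg : ℝ) + 1)) * ‖cl p‖ / 2 := by
        have h1 : θ / (32 * ((Sg : ℝ) + 1)) ≤ ‖cl p‖ / (32 * ((Sg : ℝ) + 1)) :=
          div_le_div_of_nonneg_right hj (by positivity)
        have h2 : ‖cl p‖ / (32 * ((Sg : ℝ) + 1)) = 1 / (16 * ((Sg : ℝ) + 1)) * ‖cl p‖ / 2 := by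
          field_simp
          norm_num
        linarith
      have t8 : (1 + ηV) * ‖cl (1 - V' B)‖ ≤ 2 * ‖cl (1 - V' B)‖ :=
        mul_le_mul_of_nonneg_right (by linarith) (norm_nonneg _)
      linarith
    · have h1 : pot pf i ≤ pot pf ((j' : ℕ) + 1) := pot_anti pf (by omega)
      omega

/-- The general bound: there are few phases. -/
theorem bound (hL : Liar cl dg K) {V U : Fm ι → R} {y : ι → R} {W s Sg k : ℕ} {ηV ζ : ℝ}
    (hW : 1 ≤ W) (hV : VI cl dg V y W s k ηV) (hU : VI cl dg U y W Sg k ζ) (hηV : 0 ≤ ηV)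
    (hηζ : ηV ≤ ζ) (hK : k + 2 * W ≤ K) {ℓ L : ℕ} {Sch : Set (Fm ℕ)} {Γ : Set (Fm ι)}
    (hS : ∀ ψ ∈ Sch, ψ.len ≤ ℓ ∧ ∀ x, ψ.eval x = true)
    (hΓ : ∀ A ∈ Γ, A.len ≤ ℓ ∧ ∀ p ∈ dg k, cl ((1 - ev y A) * p) = 0)
    (hk : (2 * ℓ + 6) * W ≤ k)
    (hζ : 8000 * (((L : ℝ) + 1) * ((Sg : ℝ) + 1) ^ 2 * (100 ^ ℓ * ζ)) ≤ 1)
    {pf : Fin L → Fm ι} (hpf : IsDer Sch Γ pf) (hs : ∀ i, (pf i).leaves ≤ s) (hSg : 3 * s ≤ Sg)
    (j : Fin L) (hj : 1 / 4 ≤ ‖cl (1 - V (nf (pf j)))‖) {m : ℕ}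
    (hm : ηV ≤ ζ * (1 / 4 / (32 * ((Sg : ℝ) + 1)) ^ m)) :
    m * (Sg - 3 * s) ≤ 2 * ∑ j, (pf j).leaves := by
  have hSg0 : (0 : ℝ) ≤ Sg := Nat.cast_nonneg _
  have hD : (1 : ℝ) ≤ 32 * ((Sg : ℝ) + 1) := by linarith
  refine phases (fun A => ‖cl (1 - V (nf A))‖) (θ0 := 1 / 4)
    (θm := 1 / 4 / (32 * ((Sg : ℝ) + 1)) ^ m) hD (by norm_num) hSg ?_ le_rfl j hj
  intro j1 θ h1 h2
  have h3 : 0 < 1 / 4 / (32 * ((Sg : ℝ) + 1)) ^ m := by positivity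
  have hζ0 : 0 ≤ ζ := hηV.trans hηζ
  exact phase hL hW hV hU hηV hηζ hK hS hΓ hk hζ hpf hs hSg j1 (lt_of_lt_of_le h3 h1)
    (hm.trans (mul_le_mul_of_nonneg_left h1 hζ0)) h2

end Pool.H63.ZS
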