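import Mathlib
import Pool.Agent.H63.ZS.Cnj
import Pool.Agent.H6.QL.Stm

set_option autoImplicit false

/-!
# The first formula
-/

namespace Pool.H63.ZS

open Finset Classical Pool.Agent.H3.Frg Pool.Agent.H3.Frg2 Pool.Agent.H3.Frg4 Pool.Agent.H81.QG

open Pool.H6.QL (cnj)

variable {R H ι : Type} [CommRing R] [Algebra ℝ R] [NormedAddCommGroup H] [InnerProductSpace ℝ H]
variable {cl : R →ₗ[ℝ] H} {dg : ℕ → Submodule ℝ R} {K : ℕ}

private theorem neg_big (hL : Liar cl dg K) {V : Fm ι → R} {y : ι → R} {W s k : ℕ} {η : ℝ}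
    (hV : VI cl dg V y W s k η) (hη1 : η ≤ 1 / 4) {B : Fm ι} (hB : B.leaves ≤ s)
    (h : ‖cl (1 - V B)‖ ≤ 1 / 4) : 1 / 4 ≤ ‖cl (1 - V (.neg B))‖ := by
  have h1W : ∀ i, (1 : R) ∈ dg i := fun i => hL.mono (Nat.zero_le i) hL.one
  have t1 := hV.neg B hB 1 (h1W _)
  rw [hL.nrm] at t1
  have e : (1 : R) = (1 - V (.neg B)) + (1 - V B) + (V (.neg B) - (1 - V B)) * 1 := by ring
  have t2 : ‖cl 1‖ ≤ ‖cl (1 - V (.neg B))‖ + ‖cl (1 - V B)‖ + ‖cl ((V (.neg B) - (1 - V B)) * 1)‖ := by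
    have t3 := norm_add₃_le (a := cl (1 - V (.neg B))) (b := cl (1 - V B))
      (c := cl ((V (.neg B) - (1 - V B)) * 1))
    rw [← map_add, ← map_add, ← e] at t3
    exact t3
  rw [hL.nrm] at t2
  linarith

/-- A refutation contains a formula which is not nearly true. -/
theorem start_ref (hL : Liar cl dg K) {V : Fm ι → R} {y : ι → R} {W s k : ℕ} {η : ℝ}
    (hV : VI cl dg V y W s k η) (hη1 : η ≤ 1 / 4) {L : ℕ} {pf : Fin L → Fm ι}
    (hs : ∀ i, (pf i).leaves ≤ s) (h : ∃ i j, pf i = Fm.neg (pf j)) :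
    ∃ j, 1 / 4 ≤ ‖cl (1 - V (pf j))‖ := by
  obtain ⟨i, j, hij⟩ := h
  by_cases h1 : ‖cl (1 - V (pf j))‖ ≤ 1 / 4
  · refine ⟨i, ?_⟩
    rw [hij]
    exact neg_big hL hV hη1 (hs j) h1
  · exact ⟨j, (not_le.1 h1).le⟩

private theorem cnj_leaves (A : Fm ι) (l : List (Fm ι)) : l.length + 1 ≤ (cnj A l).leaves := by
  induction l generalizing A with
  | nil => exact leaves_pos A
  | cons B l ih =>
    have h1 := ih B
    have h2 := leaves_pos A
    show (B :: l).length + 1 ≤ A.leaves + (cnj B l).leaves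
    rw [List.length_cons]
    omega

private theorem cnj_bd (hL : Liar cl dg K) {V : Fm ι → R} {y : ι → R} {W s k : ℕ} {η : ℝ}
    (hV : VI cl dg V y W s k η) (hη : 0 ≤ η) (hη1 : η ≤ 1) (hK : k + 2 * W ≤ K) (hk : 2 * W ≤ k)
    {Γ : Set (Fm ι)} {α : ℝ} (hα : 0 ≤ α)
    (hΓ : ∀ A ∈ Γ, A.leaves ≤ s → ‖cl (1 - V A)‖ ≤ α) (l : List (Fm ι)) (A : Fm ι) (hA : A ∈ Γ)
    (hl : ∀ B ∈ l, B ∈ Γ) (hs : (cnj A l).leaves ≤ s) :
    ‖cl (1 - V (cnj A l))‖ ≤ (α + 10 * η) * (l.length + 1) * (1 + η) ^ l.length := by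
  have h1W : ∀ i, (1 : R) ∈ dg i := fun i => hL.mono (Nat.zero_le i) hL.one
  induction l generalizing A with
  | nil =>
    have h1 := hΓ A hA hs
    show ‖cl (1 - V A)‖ ≤ _
    simp only [List.length_nil, Nat.cast_zero, zero_add, mul_one, pow_zero]
    linarith
  | cons B l ih =>
    have hlv : (cnj A (B :: l)).leaves = A.leaves + (cnj B l).leaves := rfl
    rw [hlv] at hs
    have hAs : A.leaves ≤ s := by omega
    have hcs : (cnj B l).leaves ≤ s := by omega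
    have t1 := ih B (hl B List.mem_cons_self) (fun C hC => hl C (List.mem_cons_of_mem _ hC)) hcs
    have t2 := hΓ A hA hAs
    have t3 := and_sml hL hV hη hη1 hK hs (k' := 0) (by omega) 1 (h1W _)
    rw [hL.nrm] at t3
    obtain ⟨a1, -⟩ := vbd hL (hV.deg A hAs) hη (hV.idem A hAs) hK
    have m1 : 1 - V (cnj B l) ∈ dg k :=
      sub_mem (h1W _) (hL.mono (by omega) (hV.deg _ hcs))
    have t4 := a1 _ m1
    have e : 1 - V (cnj A (B :: l)) = (1 - V A) + V A * (1 - V (cnj B l)) -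
        (V (.neg (.imp A (.neg (cnj B l)))) - V A * V (cnj B l)) * 1 := by
      show 1 - V (.neg (.imp A (.neg (cnj B l)))) = _
      ring
    rw [e, map_sub, map_add]
    have t5 := norm_sub_le (cl (1 - V A) + cl (V A * (1 - V (cnj B l))))
      (cl ((V (.neg (.imp A (.neg (cnj B l)))) - V A * V (cnj B l)) * 1))
    have t6 := norm_add_le (cl (1 - V A)) (cl (V A * (1 - V (cnj B l))))
    have t7 : (1 + η) * ‖cl (1 - V (cnj B l))‖ ≤
        (1 + η) * ((α + 10 * η) * (l.length + 1) * (1 + η) ^ l.length) :=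
      mul_le_mul_of_nonneg_left t1 (by linarith)
    rw [List.length_cons, pow_succ]
    push_cast
    have hp : (1 : ℝ) ≤ (1 + η) ^ l.length := one_le_pow₀ (by linarith)
    have h2 : 1 * 1 ≤ (1 + η) ^ l.length * (1 + η) :=
      mul_le_mul hp (by linarith) (by norm_num) (by linarith)
    have h3 : (α + 10 * η) * (1 * 1) ≤ (α + 10 * η) * ((1 + η) ^ l.length * (1 + η)) :=
      mul_le_mul_of_nonneg_left h2 (by positivity)
    linarith

/-- The tautology is not nearly true. -/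
theorem start_taut (hL : Liar cl dg K) {V : Fm ι → R} {y : ι → R} {W s k : ℕ} {η : ℝ}
    (hW : 1 ≤ W) (hV : VI cl dg V y W s k η) (hη : 0 ≤ η) (hK : k + 2 * W ≤ K) {ℓ : ℕ}
    (hk : (ℓ + 2) * W ≤ k) {Γ : Set (Fm ι)}
    (hΓ : ∀ A ∈ Γ, A.len ≤ ℓ ∧ ∀ p ∈ dg k, cl ((1 - ev y A) * p) = 0)
    (hsm : 22 * ((s : ℝ) * (100 ^ ℓ * η)) ≤ 1 / 4) (hpw : (1 + η) ^ s ≤ 2) {A : Fm ι}
    {l : List (Fm ι)} (hA : A ∈ Γ) (hl : ∀ B ∈ l, B ∈ Γ) (hs : (cnj A l).leaves ≤ s) :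
    1 / 4 ≤ ‖cl (1 - V (.neg (cnj A l)))‖ := by
  have h100 : (1 : ℝ) ≤ 100 ^ ℓ := one_le_pow₀ (by norm_num)
  have hs1 : (1 : ℝ) ≤ s := by
    have h1 := cnj_leaves A l
    have h2 : 1 ≤ s := by omega
    exact_mod_cast h2
  obtain ⟨ζ, hζ⟩ : ∃ ζ : ℝ, ζ = 100 ^ ℓ * η := ⟨_, rfl⟩
  have hηζ : η ≤ ζ := by rw [hζ]; exact le_mul_of_one_le_left hη h100
  have hζ0 : 0 ≤ ζ := hη.trans hηζ
  rw [← hζ] at hsm
  have hζs : ζ ≤ s * ζ := le_mul_of_one_le_left hζ0 hs1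
  have hη4 : η ≤ 1 / 4 := by linarith
  refine neg_big hL hV hη4 hs ?_
  have hk1 : (ℓ + 2) * W = ℓ * W + 2 * W := by ring
  have h1 := cnj_bd hL hV hη (by linarith) hK (by omega) (α := ζ) hζ0 (Γ := Γ) ?_ l A hA hl hs
  · refine h1.trans ?_
    have h2 : (l.length : ℝ) + 1 ≤ s := by
      have h3 := cnj_leaves A l
      have h4 : l.length + 1 ≤ s := by omega
      exact_mod_cast h4
    have h3 : (1 + η) ^ l.length ≤ 2 := by
      refine (pow_le_pow_right₀ (by linarith) ?_).trans hpw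
      have h4 := cnj_leaves A l
      omega
    have h4 : (ζ + 10 * η) * ((l.length : ℝ) + 1) * (1 + η) ^ l.length ≤ (11 * ζ) * s * 2 := by
      refine mul_le_mul (mul_le_mul (by linarith) h2 (by positivity) (by positivity)) h3
        (by positivity) (by positivity)
    linarith
  · intro B hB hBs
    obtain ⟨h2, h3⟩ := hΓ B hB
    have h4 : B.len * W ≤ ℓ * W := Nat.mul_le_mul_right W h2
    have h5 := ax_sml hL hW hV hη (by linarith) hK B h3 hBs (k' := 0) (by omega) 1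
      (hL.mono (Nat.zero_le 0) hL.one)
    rw [mul_one, hL.nrm, mul_one] at h5
    refine h5.trans ?_
    rw [hζ]
    exact mul_le_mul_of_nonneg_right (pow_le_pow_right₀ (by norm_num) h2) hη

end Pool.H63.ZS
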