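import Mathlib
import Pool.Agent.H6.QR.Gen2
import Pool.Agent.H63.ZS.Stm3
import Pool.Agent.H63.ZS.Ex
import Pool.Agent.H63.ZS.Num
import Pool.Agent.H63.ZS.Phs
import Pool.Agent.H63.ZS.Sta

set_option autoImplicit false

/-!
# The general theorem, with the lengths of the lines
-/

namespace Pool.H63.ZS

open Finset Classical Pool.Agent.H3.Frg Pool.Agent.H3.Frg2 Pool.Agent.H3.Frg4 Pool.Agent.H81.QG

open Pool.H6.QL (cnj Cls PE Rn yy Hard3 RW)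

/-- What is proved: a contradiction, or the tautology. -/
def Cnt {n : ℕ} (Γ : Set (List (Fin n × Bool))) {L : ℕ} (pf : Fin L → Fm (Fin n)) : Prop :=
  (∃ i j, pf i = Fm.neg (pf j)) ∨ ∃ (A : Fm (Fin n)) (l : List (Fm (Fin n))), A ∈ Cls Γ ∧
    (∀ B ∈ l, B ∈ Cls Γ) ∧ ∃ i, pf i = Fm.neg (cnj A l)

private theorem pow_two_bd' {ζ : ℝ} (hζ : 0 ≤ ζ) {n : ℕ} (h : (n : ℝ) * ζ ≤ 1 / 2) :
    (1 + ζ) ^ n ≤ 2 := by
  have h1 : (1 + ζ) ^ n ≤ Real.exp (n * ζ) := by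
    rw [mul_comm, Real.exp_mul, Real.rpow_natCast]
    exact pow_le_pow_left₀ (by linarith) (by rw [add_comm]; exact Real.add_one_le_exp ζ) n
  have h5 : Real.exp (n * ζ) ≤ Real.exp (1 / 2) := Real.exp_le_exp.mpr h
  have h6 : Real.exp (1 / 2) ≤ 2 := by
    have h7 := Real.exp_one_lt_d9
    have h8 : Real.exp (1 / 2) ^ 2 = Real.exp 1 := by
      rw [← Real.exp_nat_mul]
      norm_num
    have h9 := Real.exp_pos (1 / 2)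
    nlinarith
  linarith

/-- The main case: `K ≤ s ≤ K ^ (2 - e / 2)`. -/
theorem core (e : ℝ) (he : 0 < e) : ∃ δ : ℝ, 0 < δ ∧ ∃ K0 : ℕ, ∀ K : ℕ, K0 ≤ K → 1 ≤ (K : ℝ) ∧
    ∀ (n : ℕ) (Γ : Set (List (Fin n × Bool))), PE n K Γ →
    (∀ c ∈ Γ, (c.length : ℝ) ≤ (K : ℝ) ^ δ) →
    ∀ Sch : Set (Fm ℕ), (∀ ψ ∈ Sch, (ψ.len : ℝ) ≤ (K : ℝ) ^ δ ∧ ∀ x : ℕ → Bool, ψ.eval x = true) →
    ∀ Γ' : Set (Fm (Fin n)), Γ' ⊆ Cls Γ → ∀ (s L : ℕ) (pf : Fin L → Fm (Fin n)),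
    IsDer Sch Γ' pf → (∀ i, (pf i).leaves ≤ s) → K ≤ s → (s : ℝ) ≤ (K : ℝ) ^ (2 - e / 2) →
    ((∑ i, (pf i).leaves : ℕ) : ℝ) * s < 4 * (K : ℝ) ^ (4 - e) → Cnt Γ pf → False := by
  obtain ⟨δ, hδ, K1, h1⟩ := numz e he
  obtain ⟨K2, h2⟩ := Pool.H6.QR.master2 (e / 16) (by positivity)
  refine ⟨δ, hδ, max K1 K2, fun K hK => ?_⟩
  obtain ⟨hK1, hnum⟩ := h1 K ((le_max_left _ _).trans hK)
  refine ⟨hK1, ?_⟩
  intro n Γ hPE hΓ Sch hSch Γ' hΓ' s L pf hpf hs hKs hsK hZ hcnt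
  have hKpos : (0 : ℝ) < K := by linarith
  obtain ⟨x, hx⟩ : ∃ x, x = (K : ℝ) ^ δ := ⟨_, rfl⟩
  rw [← hx] at hΓ
  have hx1 : 1 ≤ x := by rw [hx]; exact Real.one_le_rpow hK1 hδ.le
  obtain ⟨ℓ, hℓ⟩ : ∃ ℓ, ℓ = 4 * ⌊x⌋₊ := ⟨_, rfl⟩
  have hℓx : (ℓ : ℝ) ≤ 4 * x := by
    rw [hℓ]
    push_cast
    have := Nat.floor_le (show 0 ≤ x by linarith)
    linarith
  obtain ⟨Z, hZd⟩ : ∃ Z, Z = ∑ i, (pf i).leaves := ⟨_, rfl⟩
  rw [← hZd] at hZ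
  have hLZ : L ≤ Z := by
    rw [hZd]
    calc L = ∑ _i : Fin L, 1 := by simp
      _ ≤ ∑ i, (pf i).leaves := Finset.sum_le_sum fun i _ => leaves_pos _
  rw [← hx] at hnum
  obtain ⟨X, lam, Sg, m, c1, c2, c3, c4, c5, c6, c7, c8, c9, c10, c11, c12⟩ :=
    hnum s Z ℓ hKs hsK hZ hℓx
  obtain ⟨m', Xop, Lf, cl, dg, hRW⟩ := Pool.H90.QL.rw_exists hPE
  have hL := hRW.liar
  obtain ⟨V, W1, hW1, hV⟩ := h2 m' n K Γ Xop Lf cl dg hRW ((le_max_right _ _).trans hK) s X c1 c2 c3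
  obtain ⟨U, W2, hW2, hU⟩ := h2 m' n K Γ Xop Lf cl dg hRW ((le_max_right _ _).trans hK) Sg lam c4 c5 c6
  obtain ⟨W, hW⟩ : ∃ W, W = W1 + W2 + 1 := ⟨_, rfl⟩
  have hWK := c8 W1 W2 hW1 hW2
  rw [← hW] at hWK
  have hWℓ : ℓ ≤ ℓ * W := Nat.le_mul_of_pos_right ℓ (by omega)
  have hWe : (3 * ℓ + 8) * W = 3 * (ℓ * W) + 8 * W := by ring
  obtain ⟨k, hk⟩ : ∃ k, k + 2 * W + ℓ = K := ⟨K - (2 * W + ℓ), by omega⟩
  have hWe2 : (2 * ℓ + 6) * W = 2 * (ℓ * W) + 6 * W := by ring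
  have hV' : VI cl dg V yy W s k ((1 / 2 : ℝ) ^ X) :=
    vi_le hL (hV k (by omega)) (by omega) le_rfl le_rfl le_rfl
  have hU' : VI cl dg U yy W Sg k ((1 / 2 : ℝ) ^ lam) :=
    vi_le hL (hU k (by omega)) (by omega) le_rfl le_rfl le_rfl
  have hax : ∀ A ∈ Cls Γ, A.len ≤ ℓ ∧ ∀ p ∈ dg k, cl ((1 - ev yy A) * p) = 0 := by
    rintro A ⟨a, c, hac, rfl⟩
    have h1 : (c.length + 1 : ℕ) ≤ ⌊x⌋₊ := by
      apply Nat.le_floor
      have := hΓ _ hac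
      rw [List.length_cons] at this
      exact this
    refine ⟨?_, ?_⟩
    · rw [hℓ]
      exact (Pool.H6.QL.len_clF a c).trans (Nat.mul_le_mul_left 4 h1)
    · intro p hp
      rw [Pool.H6.QL.ev_clF]
      refine hRW.null _ hac k ?_ p hp
      rw [List.length_cons]
      omega
  have hSchl : ∀ ψ ∈ Sch, ψ.len ≤ ℓ ∧ ∀ y : ℕ → Bool, ψ.eval y = true := by
    intro ψ hψ
    obtain ⟨h1, h2⟩ := hSch ψ hψ
    rw [← hx] at h1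
    refine ⟨?_, h2⟩
    have h3 : ψ.len ≤ ⌊x⌋₊ := Nat.le_floor h1
    omega
  have hζ0 : (0 : ℝ) ≤ (1 / 2 : ℝ) ^ lam := by positivity
  have hη0 : (0 : ℝ) ≤ (1 / 2 : ℝ) ^ X := by positivity
  have hSg0 : (0 : ℝ) ≤ Sg := Nat.cast_nonneg _
  have hZ0 : (0 : ℝ) ≤ Z := Nat.cast_nonneg _
  obtain ⟨ζ1, hζ1⟩ : ∃ ζ1 : ℝ, ζ1 = 100 ^ ℓ * (1 / 2 : ℝ) ^ lam := ⟨_, rfl⟩
  have hζ10 : 0 ≤ ζ1 := by rw [hζ1]; positivity
  have h100 : (1 : ℝ) ≤ 100 ^ ℓ := one_le_pow₀ (by norm_num)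
  have hζζ : (1 / 2 : ℝ) ^ lam ≤ ζ1 := by rw [hζ1]; exact le_mul_of_one_le_left hζ0 h100
  have hηζ1 : 100 ^ ℓ * (1 / 2 : ℝ) ^ X ≤ ζ1 := by
    rw [hζ1]
    exact mul_le_mul_of_nonneg_left c10 (by positivity)
  -- the small error is very small
  have c9' : 8000 * (((L : ℝ) + 1) * ((Sg : ℝ) + 1) ^ 2 * (100 ^ ℓ * (1 / 2) ^ lam)) ≤ 1 := by
    refine le_trans ?_ c9
    have h1 : (L : ℝ) ≤ Z := by exact_mod_cast hLZ
    have h2 : ((L : ℝ) + 1) * ((Sg : ℝ) + 1) ^ 2 ≤ ((Z : ℝ) + 1) * ((Sg : ℝ) + 1) ^ 2 :=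
      mul_le_mul_of_nonneg_right (by linarith) (by positivity)
    have h3 : ((L : ℝ) + 1) * ((Sg : ℝ) + 1) ^ 2 * (100 ^ ℓ * (1 / 2) ^ lam) ≤
        ((Z : ℝ) + 1) * ((Sg : ℝ) + 1) ^ 2 * (100 ^ ℓ * (1 / 2) ^ lam) :=
      mul_le_mul_of_nonneg_right h2 (by positivity)
    linarith
  have hq : ((Sg : ℝ) + 1) * ζ1 ≤ 1 / 8000 := by
    rw [← hζ1] at c9
    have h1 : ((Sg : ℝ) + 1) * ζ1 ≤ ((Z : ℝ) + 1) * ((Sg : ℝ) + 1) ^ 2 * ζ1 := by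
      refine mul_le_mul_of_nonneg_right ?_ hζ10
      have h2 : ((Sg : ℝ) + 1) * 1 ≤ ((Sg : ℝ) + 1) * ((Sg : ℝ) + 1) :=
        mul_le_mul_of_nonneg_left (by linarith) (by linarith)
      have h3 : 1 * (((Sg : ℝ) + 1) * ((Sg : ℝ) + 1)) ≤ ((Z : ℝ) + 1) * (((Sg : ℝ) + 1) * ((Sg : ℝ) + 1)) :=
        mul_le_mul_of_nonneg_right (by linarith) (by positivity)
      nlinarith
    linarith
  have hsr : (s : ℝ) ≤ Sg := by
    have h1 : s ≤ Sg := by omega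
    exact_mod_cast h1
  have hs0 : (0 : ℝ) ≤ s := Nat.cast_nonneg _
  have hη1 : (1 / 2 : ℝ) ^ X ≤ 1 / 4 := by
    have h1 : 1 * ζ1 ≤ ((Sg : ℝ) + 1) * ζ1 := mul_le_mul_of_nonneg_right (by linarith) hζ10
    linarith
  have hstart : ∃ j, 1 / 4 ≤ ‖cl (1 - V (nf (pf j)))‖ := by
    rcases hcnt with h | ⟨A, l, hA, hl, i, hi⟩
    · exact start_ref hL (vi_nf hV') hη1 hs h
    · refine ⟨i, ?_⟩
      rw [hi]
      have hcs : (cnj A l).leaves ≤ s := by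
        have h1 := hs i
        rw [hi] at h1
        exact h1
      have h3 : (s : ℝ) * (100 ^ ℓ * (1 / 2 : ℝ) ^ X) ≤ ((Sg : ℝ) + 1) * ζ1 :=
        mul_le_mul (by linarith) hηζ1 (by positivity) (by linarith)
      refine start_taut hL (W := W) (by omega) (vi_nf hV') hη0 (by omega) (ℓ := ℓ) ?_ hax ?_ ?_ hA hl
        hcs
      · have h1 : (ℓ + 2) * W = ℓ * W + 2 * W := by ring
        omega
      · linarith
      · apply pow_two_bd' hη0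
        have h4 : (s : ℝ) * (1 / 2 : ℝ) ^ X ≤ s * (100 ^ ℓ * (1 / 2 : ℝ) ^ X) :=
          mul_le_mul_of_nonneg_left (le_mul_of_one_le_left hη0 h100) hs0
        linarith
  obtain ⟨j, hj⟩ := hstart
  have hb := bound hL (W := W) (by omega) hV' hU' hη0 c10 (by omega) (ℓ := ℓ) hSchl
    (fun A hA => hax A (hΓ' hA)) (by omega) c9' hpf hs c7 j hj (m := m) c11
  rw [← hZd] at hb
  omega

/-- **The bound** for refutations and for proofs of the tautologies. -/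
theorem bnd (e : ℝ) (he : 0 < e) (he1 : e ≤ 1) : ∃ δ : ℝ, 0 < δ ∧ ∃ K0 : ℕ, ∀ K : ℕ, K0 ≤ K →
    1 ≤ (K : ℝ) ∧
    ∀ (n : ℕ) (Γ : Set (List (Fin n × Bool))), PE n K Γ →
    (∀ c ∈ Γ, (c.length : ℝ) ≤ (K : ℝ) ^ δ) →
    ∀ Sch : Set (Fm ℕ), (∀ ψ ∈ Sch, (ψ.len : ℝ) ≤ (K : ℝ) ^ δ ∧ ∀ x : ℕ → Bool, ψ.eval x = true) →
    ∀ Γ' : Set (Fm (Fin n)), Γ' ⊆ Cls Γ → ∀ (s L : ℕ) (pf : Fin L → Fm (Fin n)),
    IsDer Sch Γ' pf → (∀ i, (pf i).leaves ≤ s) → Cnt Γ pf →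
    (∀ s' : ℕ, (∀ i, (pf i).leaves ≤ s') → 4 * s' ≤ K → False) →
    (K : ℝ) ^ (4 - e) ≤ ((∑ i, (pf i).leaves : ℕ) : ℝ) * s := by
  obtain ⟨δ, hδ, K0, h⟩ := core e he
  refine ⟨δ, hδ, K0, fun K hK => ?_⟩
  obtain ⟨hK1, h1⟩ := h K hK
  refine ⟨hK1, ?_⟩
  intro n Γ hPE hΓ Sch hSch Γ' hΓ' s L pf hpf hs hcnt hex
  by_contra hlt
  push Not at hlt
  have hKpos : (0 : ℝ) < K := by linarith
  obtain ⟨Z, hZd⟩ : ∃ Z, Z = ∑ i, (pf i).leaves := ⟨_, rfl⟩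
  rw [← hZd] at hlt
  obtain ⟨u, hu⟩ : ∃ u, u = (K : ℝ) ^ (2 - e / 2) := ⟨_, rfl⟩
  have hu0 : 0 ≤ u := by rw [hu]; positivity
  have huu : u * u = (K : ℝ) ^ (4 - e) := by
    rw [hu, ← Real.rpow_add hKpos]
    congr 1
    ring
  have hKu : (K : ℝ) ≤ u := by
    rw [hu]
    calc (K : ℝ) = (K : ℝ) ^ (1 : ℝ) := (Real.rpow_one _).symm
      _ ≤ _ := Real.rpow_le_rpow_of_exponent_le hK1 (by linarith)
  by_cases hbig : ∃ i, ⌊u⌋₊ < (pf i).leaves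
  · obtain ⟨i, hi⟩ := hbig
    have h2 : u ≤ (pf i).leaves := by
      have h3 : u < ⌊u⌋₊ + 1 := Nat.lt_floor_add_one u
      have h4 : ((⌊u⌋₊ + 1 : ℕ) : ℝ) ≤ (pf i).leaves := by exact_mod_cast hi
      push_cast at h4
      linarith
    have h3 : ((pf i).leaves : ℝ) ≤ s := by exact_mod_cast hs i
    have h4 : ((pf i).leaves : ℝ) ≤ Z := by
      rw [hZd]
      have h5 : (pf i).leaves ≤ ∑ i, (pf i).leaves :=
        Finset.single_le_sum (f := fun i => (pf i).leaves) (fun _ _ => Nat.zero_le _)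
          (Finset.mem_univ i)
      exact_mod_cast h5
    have h5 : u * u ≤ (Z : ℝ) * s := mul_le_mul (by linarith) (by linarith) hu0 (by positivity)
    linarith
  · push Not at hbig
    obtain ⟨s', hs'⟩ : ∃ s', s' = min s ⌊u⌋₊ := ⟨_, rfl⟩
    have hl' : ∀ i, (pf i).leaves ≤ s' := fun i => by
      rw [hs']
      exact le_min (hs i) (hbig i)
    have h4 : K < 4 * s' := by
      by_contra hcon
      exact hex s' hl' (by omega)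
    obtain ⟨s1, hs1⟩ : ∃ s1, s1 = max s' K := ⟨_, rfl⟩
    have hss1 : s' ≤ s1 := by rw [hs1]; exact le_max_left _ _
    have hKs1 : K ≤ s1 := by rw [hs1]; exact le_max_right _ _
    have h41 : s1 ≤ 4 * s' := by
      rw [hs1]
      exact max_le (by omega) h4.le
    have hs's : s' ≤ s := by rw [hs']; exact min_le_left _ _
    have hs'u : (s' : ℝ) ≤ u := by
      have h5 : (s' : ℝ) ≤ (⌊u⌋₊ : ℝ) := by
        rw [hs']
        exact_mod_cast min_le_right s ⌊u⌋₊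
      exact h5.trans (Nat.floor_le hu0)
    have hs1u : (s1 : ℝ) ≤ u := by
      rw [hs1, Nat.cast_max]
      exact max_le hs'u hKu
    refine h1 n Γ hPE hΓ Sch hSch Γ' hΓ' s1 L pf hpf (fun i => (hl' i).trans hss1) hKs1
      (by rw [← hu]; exact hs1u) ?_ hcnt
    rw [← hZd]
    have h5 : (s1 : ℝ) ≤ 4 * s := by
      have h6 : s1 ≤ 4 * s := by omega
      exact_mod_cast h6
    have h6 : (Z : ℝ) * s1 ≤ Z * (4 * s) := mul_le_mul_of_nonneg_left h5 (Nat.cast_nonneg _)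
    linarith

open Filter in
private theorem K_big (δ : ℝ) (hδ : δ ≤ 1) : ∀ K : ℕ, 1 ≤ (K : ℝ) → (K : ℝ) ^ δ ≤ K := by
  intro K hK
  calc (K : ℝ) ^ δ ≤ (K : ℝ) ^ (1 : ℝ) := Real.rpow_le_rpow_of_exponent_le hK hδ
    _ = K := Real.rpow_one _

/-- **Theorem.** If there is a pseudo-expectation of degree `2 K` for a family of clauses of length at
most `K ^ δ`, then the family is hard in every system of sound axiom schemes of size at most `K ^ δ`. -/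
theorem hard3 (e : ℝ) (he : 0 < e) : ∃ δ : ℝ, 0 < δ ∧ ∃ K0 : ℕ,
    ∀ (n K : ℕ) (Γ : Set (List (Fin n × Bool))), K0 ≤ K → PE n K Γ →
    (∀ c ∈ Γ, (c.length : ℝ) ≤ (K : ℝ) ^ δ) → Hard3 Γ (K : ℝ) e δ := by
  obtain ⟨e', he'⟩ : ∃ e', e' = min e 1 := ⟨_, rfl⟩
  have he0 : 0 < e' := by
    rw [he']
    exact lt_min he one_pos
  have he1 : e' ≤ 1 := by rw [he']; exact min_le_right _ _
  have hee : e' ≤ e := by rw [he']; exact min_le_left _ _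
  obtain ⟨δ1, hδ1, K1, h1⟩ := Pool.H6.QR.hard2 e he
  obtain ⟨δ2, hδ2, K2, h2⟩ := bnd e' he0 he1
  obtain ⟨δ, hδ⟩ : ∃ δ, δ = min (min δ1 δ2) 1 := ⟨_, rfl⟩
  have hd0 : 0 < δ := by rw [hδ]; exact lt_min (lt_min hδ1 hδ2) one_pos
  have hd1 : δ ≤ δ1 := by rw [hδ]; exact (min_le_left _ _).trans (min_le_left _ _)
  have hd2 : δ ≤ δ2 := by rw [hδ]; exact (min_le_left _ _).trans (min_le_right _ _)
  have hd3 : δ ≤ 1 := by rw [hδ]; exact min_le_right _ _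
  refine ⟨δ, hd0, max K1 K2, fun n K Γ hK hPE hΓ => ?_⟩
  obtain ⟨n1, h2'⟩ := h2 K ((le_max_right _ _).trans hK)
  have m1 : (K : ℝ) ^ δ ≤ (K : ℝ) ^ δ1 := Real.rpow_le_rpow_of_exponent_le n1 hd1
  have m2 : (K : ℝ) ^ δ ≤ (K : ℝ) ^ δ2 := Real.rpow_le_rpow_of_exponent_le n1 hd2
  have m4 : (K : ℝ) ^ (4 - e) ≤ (K : ℝ) ^ (4 - e') :=
    Real.rpow_le_rpow_of_exponent_le n1 (by linarith)
  have hlen : ∀ c ∈ Γ, c.length ≤ K := by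
    intro c hc
    have h3 := (hΓ c hc).trans (K_big δ hd3 K n1)
    exact_mod_cast h3
  intro Sch hSch
  obtain ⟨s1, -, -, s4, s5⟩ := h1 n K Γ ((le_max_left _ _).trans hK) hPE
    (fun c hc => (hΓ c hc).trans m1) Sch
    fun ψ hψ => ⟨(hSch ψ hψ).1.trans m1, (hSch ψ hψ).2⟩
  have h3 := h2' n Γ hPE (fun c hc => (hΓ c hc).trans m2) Sch
    fun ψ hψ => ⟨(hSch ψ hψ).1.trans m2, (hSch ψ hψ).2⟩
  refine ⟨s1, ?_, ?_, s4, s5⟩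
  · intro s L pf hpf hs hij
    refine m4.trans (h3 (Cls Γ) le_rfl s L pf hpf hs (Or.inl hij) ?_)
    intro s' hs' h4
    exact exact_ref hPE hlen (fun ψ hψ => (hSch ψ hψ).2) hpf hs' h4 hij
  · intro A l hA hl s L pf hpf hs hi
    refine m4.trans (h3 ∅ (Set.empty_subset _) s L pf hpf hs (Or.inr ⟨A, l, hA, hl, hi⟩) ?_)
    intro s' hs' h4
    exact exact_taut hPE hlen (fun ψ hψ => (hSch ψ hψ).2) hA hl hpf hs' h4 hi

end Pool.H63.ZS
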